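import Pool.Agent.Y134.CH.Zeta

/-!
# Varieties with an action of a finite group: points and cohomology
-/

set_option autoImplicit false

namespace Pool.Agent.Y134.CH

open Polynomial

/-- A finite group `G` acting on a set `S` (of points) with a (Frobenius) map `F` and on vector spaces
`V` and `W` (cohomology of even and of odd degree) with endomorphisms `φ` and `ψ`, and the trace
formula; `c` is the contribution of cohomology groups on which `G` acts trivially. -/
structure Datum (E : Type) [Field E] where
  /-- the group -/
  G : Type
  /-- the points -/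
  S : Type
  /-- the cohomology of even degree -/
  V : Type
  /-- the cohomology of odd degree -/
  W : Type
  [group : Group G]
  [finite : Finite G]
  [action : MulAction G S]
  [addV : AddCommGroup V]
  [modV : Module E V]
  [finV : FiniteDimensional E V]
  [addW : AddCommGroup W]
  [modW : Module E W]
  [finW : FiniteDimensional E W]
  /-- the Frobenius map -/
  F : S → S
  inj : Function.Injective F
  equivariant : ∀ (g : G) (x : S), F (g • x) = g • F x
  fix_finite : ∀ m, 1 ≤ m → Finite {x : S // F^[m] x = x}
  /-- the action on `V` -/
  σ : Representation E G V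
  /-- Frobenius on `V` -/
  φ : Module.End E V
  commV : ∀ g, φ * σ g = σ g * φ
  /-- the action on `W` -/
  τ : Representation E G W
  /-- Frobenius on `W` -/
  ψ : Module.End E W
  commW : ∀ g, ψ * τ g = τ g * ψ
  /-- the contribution of the other cohomology groups -/
  c : ℕ → E
  trace : ∀ m, 1 ≤ m → ∀ g : G, (Nat.card {x : S // F^[m] x = g • x} : E)
    = c m + LinearMap.trace E V (σ g * φ ^ m) - LinearMap.trace E W (τ g * ψ ^ m)

attribute [instance] Datum.group Datum.finite Datum.action Datum.addV Datum.modV Datum.finV
  Datum.addW Datum.modW Datum.finW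

/-- A subgroup `K` with a character `χ ≠ 1` whose order is a power of the prime `p`, and the zeta
function `H` of its good orbits modulo `p`. -/
structure Pair {E : Type} [Field E] (D : Datum E) where
  /-- the subgroup -/
  K : Subgroup D.G
  /-- the character -/
  χ : K →* Eˣ
  /-- the prime -/
  p : ℕ
  /-- the exponent -/
  s : ℕ
  prime : p.Prime
  order : ∀ k, χ k ^ p ^ s = 1
  ne_one : χ ≠ 1
  /-- the root of unity -/
  μ : E
  primitive : IsPrimitiveRoot μ (p ^ s)
  /-- the zeta function modulo `p` -/
  H : (ZMod p)[X]
  zeta : ZetaRed χ D.F μ (onPart D.τ D.ψ D.commW K χ) p H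

section
variable {E : Type} [Field E] {D : Datum E}

/-- The part of `V` on which `K` acts through `χ`. -/
def Pair.part (P : Pair D) : Submodule E D.V := charPart D.σ P.K P.χ

/-- Frobenius on this part. -/
noncomputable def Pair.frob (P : Pair D) : Module.End E P.part :=
  onPart D.σ D.φ D.commV P.K P.χ

/-- The dimension of the part. -/
noncomputable def Pair.dim (P : Pair D) : ℕ := Module.finrank E P.part

/-- The multiplicity of the eigenvalue `α` of Frobenius on the part. -/
noncomputable def Pair.mult (P : Pair D) (α : E) : ℕ := CH.mult P.frob α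

/-- The determinant of Frobenius on the part. -/
noncomputable def Pair.det (P : Pair D) : E := detOf P.frob

/-- The values of the character are `± 1`. -/
def Pair.IsReal (P : Pair D) : Prop := ∀ k, P.χ k ^ 2 = 1

/-- The zeta function modulo `p` is divisible by `(1 - Q T) ^ n`. -/
def Pair.Pole (P : Pair D) (Q n : ℕ) : Prop := (1 - C (Q : ZMod P.p) * X) ^ n ∣ P.H

/-- Every `G`-stable subspace `R ≠ 0` of `V` without invariants meets the part of one of the
pairs. -/
def Detects {ι : Type} (P : ι → Pair D) : Prop :=
  ∀ R : Submodule E D.V, R ≠ ⊥ → (∀ g, ∀ v ∈ R, D.σ g v ∈ R) →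
    (R ⊓ D.σ.invariants : Submodule E D.V) = ⊥ → ∃ i, (R ⊓ (P i).part : Submodule E D.V) ≠ ⊥

end

end Pool.Agent.Y134.CH
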