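import Pool.Agent.Y134.CH.Defs
import Pool.Agent.Y134.Cyc.Red
import Pool.Agent.Y134.Cyc.Chars
import Pool.Agent.W326.HS.EI
import Pool.Agent.W63.HS.TR
import Pool.Agent.W804.HS.RD

/-!
# The congruence for a character of prime power order
-/

set_option autoImplicit false

namespace Pool.Agent.Y134.CH

open Finset Polynomial Pool.Agent.W528.HS Pool.Agent.W111.HS.EC Pool.Agent.Y134.Cyc

lemma isIntegral_ev {E : Type} [Field E] {μ : E} (hμ : IsIntegral ℤ μ) (g : ℤ[X]) :
    IsIntegral ℤ (ev μ g) := by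
  have h1 : aeval μ g ∈ Algebra.adjoin ℤ {μ} := aeval_mem_adjoin_singleton ℤ μ
  exact adjoin_le_integralClosure hμ h1

lemma int_roots {E : Type} [Field E] {A : Multiset E}
    (h : ∀ n, IsIntegral ℤ (((A.map fun x => X - C x).prod : E[X]).coeff n)) :
    ∀ x ∈ A, IsIntegral ℤ x := by
  intro x hx
  have hmon : ((A.map fun x => X - C x).prod : E[X]).Monic :=
    monic_multiset_prod_of_monic _ _ fun x _ => monic_X_sub_C x
  have hlift : ((A.map fun x => X - C x).prod : E[X])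
      ∈ Polynomial.lifts (algebraMap (integralClosure ℤ E) E) := by
    rw [Polynomial.lifts_iff_coeff_lifts]
    intro n
    exact ⟨⟨_, h n⟩, rfl⟩
  obtain ⟨Q, hQ1, -, hQ2⟩ := lifts_and_degree_eq_and_monic hlift hmon
  have h1 : IsIntegral (integralClosure ℤ E) x := by
    refine ⟨Q, hQ2, ?_⟩
    rw [← eval_map, hQ1, eval_multiset_prod, Multiset.prod_eq_zero_iff, Multiset.map_map,
      Multiset.mem_map]
    exact ⟨x, hx, by simp⟩
  exact isIntegral_trans x h1

lemma int_of_lift {E : Type} [Field E] {μ : E} (hμ : IsIntegral ℤ μ) {A : Multiset E}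
    {G : ℤ[X][X]} (hG : G.map (ev μ) = (A.map fun x => X - C x).prod) :
    ∀ x ∈ A, IsIntegral ℤ x := by
  apply int_roots
  intro n
  rw [← hG, coeff_map]
  exact isIntegral_ev hμ _

lemma int_of_lift' {E : Type} [Field E] {μ : E} (hμ : IsIntegral ℤ μ) {A : Multiset E}
    {G : ℤ[X][X]} (hG : G.map (ev μ) = (A.map fun x => 1 - C x * X).prod) :
    ∀ x ∈ A, IsIntegral ℤ x := by
  apply int_roots
  intro n
  rw [← reflect_prod, coeff_reflect, ← hG, coeff_map]
  exact isIntegral_ev hμ _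

/-- The polynomial with the roots `A₁` as the image of a polynomial over `ℤ[T]`. -/
theorem lift₂ {E : Type} [Field E] [CharZero E] (N : ℕ) (μ : E) (a : ℕ → ℕ → ℕ)
    (A₁ A₂ : Multiset E) (P₃ : ℤ[X][X])
    (hP₃ : P₃.map (ev μ) = (A₂.map fun x => 1 - C x * X).prod)
    (h : ∀ n, 1 ≤ n → orbSum N μ a n = (A₁.map fun x => x ^ n).sum - (A₂.map fun x => x ^ n).sum) :
    ∃ G : ℤ[X][X], G.map (ev μ) = (A₁.map fun x => X - C x).prod := by
  have hR : ∀ (n : ℕ) (x : E), n ≠ 0 → (n : E) * x = 0 → x = 0 := by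
    intro n x hn h
    rcases mul_eq_zero.1 h with h2 | h2
    · exact (hn (Nat.cast_eq_zero.1 h2)).elim
    · exact h2
  have hc : ∀ n, ∃ g : ℤ[X], ev μ g = ((A₁.map fun x => 1 - C x * X).prod : E[X]).coeff n := by
    intro n
    have h1 := main_congr hR N μ a A₁ A₂ h n
    have h2 := (PowerSeries.X_pow_dvd_iff.1 h1) n (Nat.lt_succ_self n)
    rw [map_sub, sub_eq_zero, gs_coe, gs_coe, Polynomial.coeff_coe, pm_map, ← hP₃,
      Polynomial.polynomial_map_coe, ← map_mul, PowerSeries.coeff_map] at h2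
    exact ⟨_, h2.symm⟩
  have h1 : ((A₁.map fun x => X - C x).prod : E[X]) ∈ Polynomial.lifts (ev μ) := by
    rw [Polynomial.lifts_iff_coeff_lifts]
    intro n
    rw [← reflect_prod, coeff_reflect]
    obtain ⟨g, hg⟩ := hc (revAt A₁.card n)
    exact ⟨g, hg⟩
  rw [Polynomial.mem_lifts] at h1
  exact h1

/-- The reduction of `∏ (1 - x T)`. -/
lemma red_prod₂ {E : Type} [Field E] {μ : E} {G : ℤ[X][X]}
    {B : Multiset E} (hB : G.map (ev μ) = (B.map fun x => 1 - C x * X).prod)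
    {O : Subring E} {B' : Multiset O} (hB' : B'.map Subtype.val = B) {k : Type} [Field k]
    (θ : O →+* k) (hμO : μ ∈ O) (hθ : θ ⟨μ, hμO⟩ = 1) :
    (B'.map fun x => 1 - C (θ x) * X).prod = G.map (redHom k) := by
  let ρ : ℤ[X] →+* O := (aeval (⟨μ, hμO⟩ : O) : ℤ[X] →ₐ[ℤ] O).toRingHom
  have hρX : ρ X = ⟨μ, hμO⟩ := by
    change aeval (⟨μ, hμO⟩ : O) X = _
    rw [aeval_X]
  have hρ : O.subtype.comp ρ = ev μ := by
    apply Polynomial.ringHom_ext
    · intro n
      simp
    · rw [RingHom.comp_apply, hρX, ev_X]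
      rfl
  have hρ2 : θ.comp ρ = redHom k := by
    apply Polynomial.ringHom_ext
    · intro n
      simp [redHom]
    · rw [RingHom.comp_apply, hρX, hθ]
      simp [redHom]
  have h1 : G.map ρ = (B'.map fun x => 1 - C x * X).prod := by
    apply Polynomial.map_injective O.subtype Subtype.val_injective
    rw [Polynomial.map_map, Polynomial.map_multiset_prod, Multiset.map_map, hρ, hB,
      ← hB', Multiset.map_map]
    congr 1
    apply Multiset.map_congr rfl
    intro x _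
    simp
  have h2 := congrArg (Polynomial.map θ) h1
  rw [Polynomial.map_map, Polynomial.map_multiset_prod, Multiset.map_map, hρ2] at h2
  rw [h2]
  congr 1
  apply Multiset.map_congr rfl
  intro x _
  simp

lemma exists_sub {E : Type} [Field E] {O : Subring E} (A : Multiset E) (h : ∀ x ∈ A, x ∈ O) :
    ∃ A' : Multiset O, A'.map Subtype.val = A := by
  classical
  exact ⟨A.attach.map fun x => ⟨x.1, h x.1 x.2⟩, by
    rw [Multiset.map_map]
    exact Multiset.attach_map_val A⟩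

lemma sum_pow_sub {E : Type} [Field E] {O : Subring E} (A' : Multiset O) (n : ℕ) :
    (((A'.map Subtype.val).map fun x => x ^ n).sum : E) = (A'.map fun x => (x : E) ^ n).sum := by
  have h0 : (do
      let a ← A'
      pure (a : E)) = A'.map (fun a : O => (a : E)) := by
    change A'.bind (fun a => {(a : E)}) = _
    exact Multiset.bind_singleton A' _
  rw [h0]

/-- The congruence. -/
theorem main {p s : ℕ} (hp : p.Prime) {E : Type} [Field E] [CharZero E] {μ : E}
    (hμ : μ ^ p ^ s = 1) (a : ℕ → ℕ → ℕ) (A₁ A₂ B₁ B₂ : Multiset E) (P₁ P₂ : ℤ[X])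
    (P₃ : ℤ[X][X]) (hP₁ : P₁.coeff 0 = 1) (hP₂ : P₂.coeff 0 = 1)
    (hB₁ : P₁.map (Int.castRingHom E) = (B₁.map fun x => 1 - C x * X).prod)
    (hB₂ : P₂.map (Int.castRingHom E) = (B₂.map fun x => 1 - C x * X).prod)
    (hA₂ : P₃.map (ev μ) = (A₂.map fun x => 1 - C x * X).prod)
    (h1 : ∀ n, 1 ≤ n → orbSum (p ^ s) μ a n
      = (A₁.map fun x => x ^ n).sum - (A₂.map fun x => x ^ n).sum)
    (h2 : ∀ n, 1 ≤ n → orbSum (p ^ s) (1 : E) a n
      = (B₁.map fun x => x ^ n).sum - (B₂.map fun x => x ^ n).sum)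
    (H : (ZMod p)[X])
    (hH : H * P₂.map (Int.castRingHom (ZMod p))
      = P₁.map (Int.castRingHom (ZMod p)) * P₃.map (redHom (ZMod p))) :
    ∃ (k : Type) (_ : Field k) (_ : CharP k p) (θ : (integralClosure ℤ E).toSubring →+* k)
      (A' : Multiset (integralClosure ℤ E).toSubring), A'.map Subtype.val = A₁ ∧
      (A'.map fun x => 1 - C (θ x) * X).prod = H.map (ZMod.castHom (dvd_refl p) k) ∧
      ∃ G : ℤ[X][X], G.map (ev μ) = (A₁.map fun x => X - C x).prod := by
  have hfact : Fact p.Prime := ⟨hp⟩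
  have hps : 0 < p ^ s := pow_pos hp.pos s
  have hμi : IsIntegral ℤ μ := IsIntegral.of_pow hps (by rw [hμ]; exact isIntegral_one)
  obtain ⟨G, hG⟩ := lift₂ (p ^ s) μ a A₁ A₂ P₃ hA₂ h1
  obtain ⟨k, _, _, ⟨θ⟩⟩ := Pool.Agent.W804.HS.RD.main E p hp
  obtain ⟨A₁', hA₁'⟩ := exists_sub (O := (integralClosure ℤ E).toSubring) A₁
    (int_of_lift hμi hG)
  obtain ⟨A₂', hA₂'⟩ := exists_sub (O := (integralClosure ℤ E).toSubring) A₂
    (int_of_lift' hμi hA₂)
  obtain ⟨B₁', hB₁'⟩ := exists_sub (O := (integralClosure ℤ E).toSubring) B₁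
    (integral_of_poly hP₁ hB₁)
  obtain ⟨B₂', hB₂'⟩ := exists_sub (O := (integralClosure ℤ E).toSubring) B₂
    (integral_of_poly hP₂ hB₂)
  have hμO : μ ∈ (integralClosure ℤ E).toSubring := hμi
  have hθ : θ ⟨μ, hμO⟩ = 1 := by
    have h3 : (⟨μ, hμO⟩ : (integralClosure ℤ E).toSubring) ^ p ^ s = 1 :=
      Subtype.ext (by push_cast; exact hμ)
    have h4 : (θ ⟨μ, hμO⟩ - 1) ^ p ^ s = 0 := by
      rw [sub_pow_char_pow, ← map_pow, h3, map_one, one_pow, sub_self]
    exact sub_eq_zero.mp ((pow_eq_zero_iff hps.ne').mp h4)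
  have key := Pool.Agent.W111.HS.EC.main E (p ^ s) μ hps hμ a (integralClosure ℤ E).toSubring
    A₁' A₂' B₁' B₂' (by
      intro n hn
      rw [h1 n hn, ← sum_pow_sub, ← sum_pow_sub, hA₁', hA₂']) (by
      intro n hn
      rw [h2 n hn, ← sum_pow_sub, ← sum_pow_sub, hB₁', hB₂']) k θ ⟨hμO, hθ⟩
  rw [red_prod hB₁ hB₁' θ, red_prod hB₂ hB₂' θ, red_prod₂ hA₂ hA₂' θ hμO hθ] at key
  let ι : ZMod p →+* k := ZMod.castHom (dvd_refl p) k
  have hι : ∀ P : ℤ[X], (P.map (Int.castRingHom (ZMod p))).map ι = P.map (Int.castRingHom k) := by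
    intro P
    rw [Polynomial.map_map]
    congr 1
    exact RingHom.ext_int _ _
  have hι2 : ∀ P : ℤ[X][X], (P.map (redHom (ZMod p))).map ι = P.map (redHom k) := by
    intro P
    rw [Polynomial.map_map]
    congr 1
    unfold redHom
    rw [← RingHom.comp_assoc]
    congr 1
    exact RingHom.ext_int _ _
  have hne : P₂.map (Int.castRingHom k) ≠ 0 := by
    intro h
    have h3 := congrArg (fun Q => Polynomial.coeff Q 0) h
    simp only [coeff_map, hP₂, coeff_zero, map_one] at h3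
    exact one_ne_zero h3
  refine ⟨k, inferInstance, inferInstance, θ, A₁', hA₁', ?_, G, hG⟩
  have h3 := congrArg (Polynomial.map ι) hH
  rw [Polynomial.map_mul, Polynomial.map_mul, hι, hι, hι2] at h3
  exact mul_right_cancel₀ hne (key.trans h3.symm)

end Pool.Agent.Y134.CH
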