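import Pool.Agent.Y134.CH.Par

/-!
# The base field: sums over the roots of unity of `p`-power order, real characters, transfer
-/

set_option autoImplicit false

namespace Pool.Agent.Y134.CH

open Finset Polynomial Pool.Agent.Y134.PG Pool.Agent.Y134.Cyc Module

lemma cyc_one (R : Type) [CommRing R] (Q : R) : cyc R Q 1 = -(1 - C Q * X) := by
  unfold cyc
  rw [cyclotomic_one, sub_comp, X_comp, one_comp, neg_sub]

lemma cyc_one_dvd {R : Type} [CommRing R] (Q : R) (n : ℕ) (H : R[X]) :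
    cyc R Q 1 ^ n ∣ H ↔ (1 - C Q * X) ^ n ∣ H := by
  rw [cyc_one, neg_pow]
  exact IsUnit.mul_left_dvd ((isUnit_one.neg).pow n)

section
variable {p s : ℕ} {G : Type} [Group G] [Finite G] {S : Type} [MulAction G S]
    {F : S → S} {E : Type} [Field E] [CharZero E] [IsAlgClosed E]
    {V : Type} [AddCommGroup V] [Module E V] [FiniteDimensional E V]
    {W : Type} [AddCommGroup W] [Module E W] [FiniteDimensional E W]

/-- The total multiplicity of the eigenvalues `Q ζ η`, `η` of `p`-power order. -/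
theorem sum_mult_le (hp : p.Prime) (hF : Function.Injective F)
    (hc : ∀ (g : G) (x : S), F (g • x) = g • F x)
    (hfin : ∀ m, 1 ≤ m → Finite {x : S // F^[m] x = x})
    (σ : Representation E G V) (φ : Module.End E V) (hφ : ∀ g, φ * σ g = σ g * φ)
    (τ : Representation E G W) (ψ : Module.End E W) (hψ : ∀ g, ψ * τ g = τ g * ψ)
    (c : ℕ → E)
    (htr : ∀ m, 1 ≤ m → ∀ g : G, (Nat.card {x : S // F^[m] x = g • x} : E)
      = c m + LinearMap.trace E V (σ g * φ ^ m) - LinearMap.trace E W (τ g * ψ ^ m))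
    (K : Subgroup G) (χ : K →* Eˣ) (hχ : ∀ k, χ k ^ p ^ s = 1) (hχ1 : χ ≠ 1)
    {μ : E} (hμ : IsPrimitiveRoot μ (p ^ s))
    (P₁ P₂ : ℤ[X]) (P₃ : ℤ[X][X]) (hP₁ : P₁.coeff 0 = 1) (hP₂ : P₂.coeff 0 = 1)
    (B₁ B₂ : Multiset E)
    (hB₁ : P₁.map (Int.castRingHom E) = (B₁.map fun x => 1 - C x * X).prod)
    (hB₂ : P₂.map (Int.castRingHom E) = (B₂.map fun x => 1 - C x * X).prod)
    (hP₃ : P₃.map (evHom μ) = zpoly (onPart τ ψ hψ K χ))
    (hN : ∀ m, 1 ≤ m → (goodOrbits χ F m : E)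
      = (B₁.map fun x => x ^ m).sum - (B₂.map fun x => x ^ m).sum)
    (H : (ZMod p)[X])
    (hH : H * P₂.map (Int.castRingHom (ZMod p))
      = P₁.map (Int.castRingHom (ZMod p)) * P₃.map (redHom (ZMod p)))
    (Q : ℕ) {M : ℕ} (hM : 0 < M) (hMp : ¬ p ∣ M) {ζ : E} (hζ : IsPrimitiveRoot ζ M) {e : ℕ}
    (he : ¬ cyc (ZMod p) (Q : ZMod p) M ^ (e + 1) ∣ H) (b : ℕ) :
    ∑ η ∈ nthRootsFinset (p ^ b) (1 : E),
      finrank E ((onPart σ φ hφ K χ).maxGenEigenspace ((Q : E) * (ζ * η))) ≤ e := by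
  classical
  have hfact : Fact p.Prime := ⟨hp⟩
  obtain ⟨k, _, _, θ, A', hA', hprod, G', hG'⟩ := core hp hF hc hfin σ φ hφ τ ψ hψ c htr K χ hχ hχ1
    hμ P₁ P₂ P₃ hP₁ hP₂ B₁ B₂ hB₁ hB₂ hP₃ hN H hH
  have h0 : ∑ η ∈ nthRootsFinset (p ^ b) (1 : E),
      finrank E ((onPart σ φ hφ K χ).maxGenEigenspace ((Q : E) * (ζ * η)))
      = ∑ η ∈ nthRootsFinset (p ^ b) (1 : E),
        (onPart σ φ hφ K χ).charpoly.roots.count ((Q : E) * (ζ * η)) := by
    refine sum_congr rfl fun η _ => ?_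
    rw [LinearMap.finrank_maxGenEigenspace_eq, ← count_roots]
  have h1 := cyc_dvd₂ hp θ _ A' hA' Q hM hMp hζ b
    (fun η' hη' u hu => count_conj₂ hp hμ _ hG' Q hM hMp hζ b hη' hu)
  have h2 : cyc k (Q : k) M = (cyc (ZMod p) (Q : ZMod p) M).map (ZMod.castHom (dvd_refl p) k) := by
    rw [cyc_map, map_natCast]
  rw [hprod, h2, ← Polynomial.map_pow, map_dvd_map', ← h0] at h1
  by_contra hlt
  rw [not_le] at hlt
  exact he ((pow_dvd_pow _ hlt).trans h1)

omit [CharZero E] [IsAlgClosed E] [FiniteDimensional E V] in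
/-- The form is nondegenerate on the part of a real character. -/
theorem part_nondeg [CharZero E] (σ : Representation E G V) (K : Subgroup G) (χ : K →* Eˣ)
    (hχ2 : ∀ k, χ k ^ 2 = 1) {b : V →ₗ[E] V →ₗ[E] E} (hb0 : ∀ x, (∀ y, b x y = 0) → x = 0)
    (hbG : ∀ g x y, b (σ g x) (σ g y) = b x y) (x : charPart σ K χ)
    (hx : ∀ y : charPart σ K χ, b (x : V) (y : V) = 0) : x = 0 := by
  classical
  have : Fintype K := Fintype.ofFinite K
  apply Subtype.ext
  apply hb0
  intro y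
  have ha1 : avg (tw σ K χ) y ∈ charPart σ K χ := by
    rw [← tw_inv, Representation.mem_invariants]
    exact avg_inv _ y
  have h1 := hx ⟨_, ha1⟩
  have hcard : (Fintype.card K : E) ≠ 0 := Nat.cast_ne_zero.2 Fintype.card_ne_zero
  have h2 : ∀ k : K, b (x : V) (tw σ K χ k y) = b (x : V) y := by
    intro k
    change b (x : V) ((((χ k)⁻¹ : Eˣ) : E) • σ (k : G) y) = b (x : V) y
    rw [map_smul, smul_eq_mul]
    have h3 : σ (k : G) (x : V) = (χ k : E) • (x : V) := x.2 k
    have h4 : b (σ (k : G) (x : V)) (σ (k : G) y) = b (x : V) y := hbG _ _ _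
    rw [h3, map_smul, LinearMap.smul_apply, smul_eq_mul] at h4
    have h5 : (χ k)⁻¹ = χ k := by
      rw [inv_eq_iff_mul_eq_one, ← pow_two, hχ2]
    rw [h5]
    exact h4
  have h3 : b (x : V) (avg (tw σ K χ) y) = b (x : V) y := by
    unfold avg
    rw [LinearMap.smul_apply, LinearMap.sum_apply, map_smul, map_sum, sum_congr rfl fun k _ => h2 k,
      sum_const, card_univ, nsmul_eq_mul, smul_eq_mul, ← mul_assoc, inv_mul_cancel₀ hcard, one_mul]
  rw [← h3]
  exact h1

/-- If the parts of the characters do not contain a generalized eigenvector then all generalized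
eigenvectors are invariant. -/
theorem transfer_zero (σ : Representation E G V) (φ : Module.End E V)
    (hφ : ∀ g, φ * σ g = σ g * φ) {ι : Type} (K : ι → Subgroup G) (χ : ∀ i, K i →* Eˣ)
    (hdet : ∀ R : Submodule E V, R ≠ ⊥ → (∀ g, ∀ v ∈ R, σ g v ∈ R) →
      (R ⊓ σ.invariants : Submodule E V) = ⊥ →
        ∃ i, (R ⊓ charPart σ (K i) (χ i) : Submodule E V) ≠ ⊥)
    (T : Submodule E V) (hT : ∀ g, ∀ v ∈ T, σ g v ∈ T)
    (h1 : ∀ i, (T ⊓ charPart σ (K i) (χ i) : Submodule E V) = ⊥) : T ≤ σ.invariants := by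
  classical
  have : Fintype G := Fintype.ofFinite G
  have havgT : ∀ v ∈ T, avg σ v ∈ T := by
    intro v hv
    unfold avg
    rw [LinearMap.smul_apply, LinearMap.sum_apply]
    exact T.smul_mem _ (T.sum_mem fun g _ => hT g v hv)
  have hR : (T ⊓ LinearMap.ker (avg σ) : Submodule E V) = ⊥ := by
    by_contra hne
    have hinv : ((T ⊓ LinearMap.ker (avg σ)) ⊓ σ.invariants : Submodule E V) = ⊥ := by
      rw [eq_bot_iff]
      rintro v ⟨⟨-, h2⟩, h3⟩
      have h4 := (isCompl σ).disjoint.le_bot (show v ∈ _ ⊓ _ from ⟨h2, h3⟩)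
      exact h4
    obtain ⟨i, hi⟩ := hdet _ hne (by
      intro g v hv
      refine ⟨hT g v hv.1, ?_⟩
      have h2 : avg σ v = 0 := hv.2
      have h3 : avg σ * σ g = avg σ := by
        unfold avg
        rw [smul_mul_assoc, sum_mul]
        congr 1
        refine Fintype.sum_equiv (Equiv.mulRight g) _ _ fun h => ?_
        rw [Equiv.coe_mulRight, map_mul]
      change avg σ (σ g v) = 0
      rw [← Module.End.mul_apply, h3, h2]) hinv
    apply hi
    rw [eq_bot_iff, ← h1 i]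
    exact inf_le_inf_right _ inf_le_left
  intro v hv
  have h2 : v - avg σ v ∈ (T ⊓ LinearMap.ker (avg σ) : Submodule E V) := by
    refine ⟨T.sub_mem hv (havgT v hv), ?_⟩
    change avg σ (v - avg σ v) = 0
    rw [map_sub, avg_avg, sub_self]
  rw [hR, Submodule.mem_bot, sub_eq_zero] at h2
  rw [h2, Representation.mem_invariants]
  exact fun g => avg_inv σ v g

omit [CharZero E] [IsAlgClosed E] [FiniteDimensional E V] [Finite G] in
lemma maxGen_stable (σ : Representation E G V) (φ : Module.End E V)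
    (hφ : ∀ g, φ * σ g = σ g * φ) (α : E) : ∀ g, ∀ v ∈ φ.maxGenEigenspace α,
      σ g v ∈ φ.maxGenEigenspace α := by
  intro g v hv
  rw [Module.End.mem_maxGenEigenspace] at hv ⊢
  obtain ⟨k, hk⟩ := hv
  refine ⟨k, ?_⟩
  have h1 : Commute (φ - α • (1 : Module.End E V)) (σ g) := by
    apply Commute.sub_left
    · exact hφ g
    · exact (Commute.one_left (σ g)).smul_left α
  rw [← Module.End.mul_apply, (h1.pow_left k).eq, Module.End.mul_apply, hk, map_zero]

omit [CharZero E] [IsAlgClosed E] [Finite G] in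
lemma inf_part_eq_bot (σ : Representation E G V) (φ : Module.End E V)
    (hφ : ∀ g, φ * σ g = σ g * φ) (K : Subgroup G) (χ : K →* Eˣ) (α : E)
    (h : finrank E ((onPart σ φ hφ K χ).maxGenEigenspace α) = 0) :
    (φ.maxGenEigenspace α ⊓ charPart σ K χ : Submodule E V) = ⊥ := by
  rw [eq_bot_iff]
  rintro v ⟨h1, h2⟩
  have h3 : (onPart σ φ hφ K χ).maxGenEigenspace α = ⊥ := Submodule.finrank_eq_zero.1 h
  have h1' : v ∈ φ.maxGenEigenspace α := h1
  rw [Module.End.mem_maxGenEigenspace] at h1'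
  obtain ⟨k, hk⟩ := h1'
  have h4 : (⟨v, h2⟩ : charPart σ K χ) ∈ (onPart σ φ hφ K χ).maxGenEigenspace α := by
    rw [Module.End.mem_maxGenEigenspace]
    refine ⟨k, Subtype.ext ?_⟩
    have h5 : ∀ (j : ℕ) (w : charPart σ K χ),
        ((((onPart σ φ hφ K χ - α • (1 : Module.End E (charPart σ K χ))) ^ j) w :
          charPart σ K χ) : V) = ((φ - α • (1 : Module.End E V)) ^ j) (w : V) := by
      intro j
      induction j with
      | zero => intro w; rfl
      | succ j ih =>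
        intro w
        rw [pow_succ, Module.End.mul_apply, pow_succ, Module.End.mul_apply, ih]
        rfl
    rw [h5, hk]
    rfl
  rw [h3, Submodule.mem_bot] at h4
  exact congrArg Subtype.val h4

end

end Pool.Agent.Y134.CH
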