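import Pool.Agent.Y134.CH.Sum
import Pool.Agent.Y134.CH.Alg

/-!
# The eigenvalues of Frobenius on the part of a character
-/

set_option autoImplicit false

namespace Pool.Agent.Y134.CH

open Finset Polynomial Pool.Agent.Y134.PG Pool.Agent.W528.HS Pool.Agent.Y134.Cyc

section
variable {E G V : Type} [Field E] [Group G] [AddCommGroup V] [Module E V]

/-- The twisted representation of the subgroup. -/
noncomputable def tw (σ : Representation E G V) (K : Subgroup G) (χ : K →* Eˣ) :
    Representation E K V where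
  toFun k := (((χ k)⁻¹ : Eˣ) : E) • σ (k : G)
  map_one' := by simp
  map_mul' := by
    intro k l
    rw [map_mul, mul_inv, Units.val_mul, Subgroup.coe_mul, map_mul, smul_mul_smul_comm]

lemma tw_inv (σ : Representation E G V) (K : Subgroup G) (χ : K →* Eˣ) :
    (tw σ K χ).invariants = charPart σ K χ := by
  ext v
  rw [Representation.mem_invariants]
  refine forall_congr' fun k => ?_
  change (((χ k)⁻¹ : Eˣ) : E) • σ (k : G) v = v ↔ σ (k : G) v = ((χ k : Eˣ) : E) • v
  constructor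
  · intro h
    conv_rhs => rw [← h]
    rw [smul_smul, Units.mul_inv, one_smul]
  · intro h
    rw [h, smul_smul, Units.inv_mul, one_smul]

variable [CharZero E] [FiniteDimensional E V]

/-- The trace on the invariants. -/
theorem trace_inv {K : Type} [Group K] [Fintype K] (σ : Representation E K V)
    {f : Module.End E V} (hf : ∀ g, f * σ g = σ g * f) (P : Submodule E V) (hP : σ.invariants = P)
    (hst : ∀ v ∈ P, f v ∈ P) :
    LinearMap.trace E P (f.restrict hst) = LinearMap.trace E V (avg σ * f) := by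
  let i : P →ₗ[E] V := P.subtype
  let π : V →ₗ[E] P :=
    LinearMap.codRestrict P (avg σ) (by
      intro v
      rw [← hP, Representation.mem_invariants]
      exact avg_inv σ v)
  have hid : ∀ v : P, avg σ (v : V) = v := by
    intro v
    apply avg_apply_of_inv
    have h1 : (v : V) ∈ σ.invariants := by
      rw [hP]
      exact v.2
    rwa [Representation.mem_invariants] at h1
  have h1 : avg σ * f = (i.comp π).comp f := by
    apply LinearMap.ext
    intro v
    rfl
  have h3 : f.restrict hst = (π.comp f).comp i := by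
    apply LinearMap.ext
    intro v
    apply Subtype.ext
    change f (v : V) = avg σ (f (v : V))
    exact (hid ⟨f v, hst v v.2⟩).symm
  rw [h3, h1, LinearMap.trace_comp_comm', ← LinearMap.comp_assoc]

/-- The trace on the part of a character. -/
theorem trace_part (σ : Representation E G V) {f : Module.End E V}
    (hf : ∀ g, f * σ g = σ g * f) (K : Subgroup G) [Fintype K] (χ : K →* Eˣ) :
    (Fintype.card K : E) * LinearMap.trace E (charPart σ K χ) (onPart σ f hf K χ)
      = ∑ k : K, (((χ k)⁻¹ : Eˣ) : E) * LinearMap.trace E V (σ (k : G) * f) := by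
  have hf' : ∀ k : K, f * tw σ K χ k = tw σ K χ k * f := by
    intro k
    change f * ((((χ k)⁻¹ : Eˣ) : E) • σ (k : G)) = ((((χ k)⁻¹ : Eˣ) : E) • σ (k : G)) * f
    rw [mul_smul_comm, smul_mul_assoc, hf]
  rw [onPart, trace_inv (tw σ K χ) hf' (charPart σ K χ) (tw_inv σ K χ), trace_avg]
  refine sum_congr rfl fun k _ => ?_
  have h1 : tw σ K χ k * f = (((χ k)⁻¹ : Eˣ) : E) • (σ (k : G) * f) := by
    change ((((χ k)⁻¹ : Eˣ) : E) • σ (k : G)) * f = _
    rw [smul_mul_assoc]
  rw [h1, map_smul, smul_eq_mul]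

omit [CharZero E] [FiniteDimensional E V] in
lemma comm_pow {σ : Representation E G V} {f : Module.End E V}
    (hf : ∀ g, f * σ g = σ g * f) (m : ℕ) : ∀ g, f ^ m * σ g = σ g * f ^ m := fun g =>
  (Commute.pow_left (hf g : Commute f (σ g)) m)

omit [CharZero E] [FiniteDimensional E V] in
lemma onPart_pow {σ : Representation E G V} {f : Module.End E V}
    (hf : ∀ g, f * σ g = σ g * f) (K : Subgroup G) (χ : K →* Eˣ) (m : ℕ) :
    onPart σ f hf K χ ^ m = onPart σ (f ^ m) (comm_pow hf m) K χ := by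
  unfold onPart
  rw [Module.End.pow_restrict]

end

lemma sum_char {K : Type} [Group K] [Fintype K] {E : Type} [Field E] {χ : K →* Eˣ}
    (hχ : χ ≠ 1) : ∑ k : K, (((χ k)⁻¹ : Eˣ) : E) = 0 := by
  have h0 : ∃ k, χ k ≠ 1 := by
    by_contra hcon
    push Not at hcon
    exact hχ (MonoidHom.ext hcon)
  obtain ⟨l, hl⟩ := h0
  have h1 : (((χ l)⁻¹ : Eˣ) : E) * ∑ k : K, (((χ k)⁻¹ : Eˣ) : E)
      = ∑ k : K, (((χ k)⁻¹ : Eˣ) : E) := by
    rw [mul_sum]
    refine Fintype.sum_equiv (Equiv.mulLeft l) _ _ fun k => ?_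
    rw [Equiv.coe_mulLeft, map_mul, mul_inv, Units.val_mul]
  have h2 : ((((χ l)⁻¹ : Eˣ) : E) - 1) * ∑ k : K, (((χ k)⁻¹ : Eˣ) : E) = 0 := by
    rw [sub_mul, one_mul, h1, sub_self]
  rcases mul_eq_zero.1 h2 with h3 | h3
  · exfalso
    apply hl
    rw [sub_eq_zero] at h3
    have h5 : (χ l)⁻¹ = 1 := Units.ext h3
    rwa [inv_eq_one] at h5
  · exact h3

/-- The eigenvalues on the part of a character. -/
theorem core {p s : ℕ} (hp : p.Prime) {G : Type} [Group G] [Finite G] {S : Type} [MulAction G S]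
    {F : S → S} (hF : Function.Injective F) (hc : ∀ (g : G) (x : S), F (g • x) = g • F x)
    (hfin : ∀ m, 1 ≤ m → Finite {x : S // F^[m] x = x})
    {E : Type} [Field E] [CharZero E] [IsAlgClosed E]
    {V : Type} [AddCommGroup V] [Module E V] [FiniteDimensional E V]
    {W : Type} [AddCommGroup W] [Module E W] [FiniteDimensional E W]
    (σ : Representation E G V) (φ : Module.End E V) (hφ : ∀ g, φ * σ g = σ g * φ)
    (τ : Representation E G W) (ψ : Module.End E W) (hψ : ∀ g, ψ * τ g = τ g * ψ)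
    (c : ℕ → E)
    (htr : ∀ m, 1 ≤ m → ∀ g : G, (Nat.card {x : S // F^[m] x = g • x} : E)
      = c m + LinearMap.trace E V (σ g * φ ^ m) - LinearMap.trace E W (τ g * ψ ^ m))
    (K : Subgroup G) (χ : K →* Eˣ) (hχ : ∀ k, χ k ^ p ^ s = 1) (hχ1 : χ ≠ 1)
    {μ : E} (hμ : IsPrimitiveRoot μ (p ^ s))
    (P₁ P₂ : ℤ[X]) (P₃ : ℤ[X][X]) (hP₁ : P₁.coeff 0 = 1) (hP₂ : P₂.coeff 0 = 1)
    (B₁ B₂ : Multiset E)
    (hB₁ : P₁.map (Int.castRingHom E) = (B₁.map fun x => 1 - C x * X).prod)
    (hB₂ : P₂.map (Int.castRingHom E) = (B₂.map fun x => 1 - C x * X).prod)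
    (hP₃ : P₃.map (evHom μ) = zpoly (onPart τ ψ hψ K χ))
    (hN : ∀ m, 1 ≤ m → (goodOrbits χ F m : E)
      = (B₁.map fun x => x ^ m).sum - (B₂.map fun x => x ^ m).sum)
    (H : (ZMod p)[X])
    (hH : H * P₂.map (Int.castRingHom (ZMod p))
      = P₁.map (Int.castRingHom (ZMod p)) * P₃.map (redHom (ZMod p))) :
    ∃ (k : Type) (_ : Field k) (_ : CharP k p) (θ : (integralClosure ℤ E).toSubring →+* k)
      (A' : Multiset (integralClosure ℤ E).toSubring),
      A'.map Subtype.val = (onPart σ φ hφ K χ).charpoly.roots ∧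
      (A'.map fun x => 1 - C (θ x) * X).prod = H.map (ZMod.castHom (dvd_refl p) k) ∧
      ∃ G : ℤ[X][X], G.map (ev μ)
        = ((onPart σ φ hφ K χ).charpoly.roots.map fun x => X - C x).prod := by
  classical
  have : Fintype K := Fintype.ofFinite K
  have hcard : (Fintype.card K : E) ≠ 0 := Nat.cast_ne_zero.2 Fintype.card_ne_zero
  obtain ⟨a, ha⟩ := orb (G := K) (S := S) (χ := χ) (F := F) (pow_pos hp.pos s) hμ hχ hF
    (fun g x => hc (g : G) x) hfin
  refine main hp hμ.pow_eq_one a _ ((onPart τ ψ hψ K χ).charpoly.roots) B₁ B₂ P₁ P₂ P₃ hP₁ hP₂ hB₁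
    hB₂ hP₃ ?_ ?_ H hH
  · intro n hn
    rw [← Pool.Agent.W63.HS.TR.main E _ (onPart σ φ hφ K χ) n,
      ← Pool.Agent.W63.HS.TR.main E _ (onPart τ ψ hψ K χ) n, onPart_pow, onPart_pow]
    apply mul_left_cancel₀ hcard
    rw [← (ha n hn).1, mul_sub, trace_part, trace_part, ← sum_sub_distrib]
    have h1 : ∀ k : K, (((χ k)⁻¹ : Eˣ) : E) * (Nat.card {x : S // F^[n] x = k • x} : E)
        = (((χ k)⁻¹ : Eˣ) : E) * c n
          + ((((χ k)⁻¹ : Eˣ) : E) * LinearMap.trace E V (σ (k : G) * φ ^ n)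
            - (((χ k)⁻¹ : Eˣ) : E) * LinearMap.trace E W (τ (k : G) * ψ ^ n)) := by
      intro k
      have h2 := htr n hn (k : G)
      have h3 : (Nat.card {x : S // F^[n] x = k • x} : E)
          = (Nat.card {x : S // F^[n] x = (k : G) • x} : E) := rfl
      rw [h3, h2]
      ring
    rw [sum_congr rfl fun k _ => h1 k, sum_add_distrib, ← sum_mul, sum_char hχ1, zero_mul, zero_add]
  · intro n hn
    rw [← hN n hn, (ha n hn).2]

end Pool.Agent.Y134.CH
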