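import Mathlib

/-!
# Characters of finite groups acting on a set with a Frobenius map
-/

set_option autoImplicit false

namespace Pool.Agent.Y134.CH

open Polynomial

/-- The number of orbits `O` of `G` on `S` which are stable under the `m`-th iterate of `F` and such
that the character `χ` is trivial on the stabilizers of the points of `O`. -/
noncomputable def goodOrbits {G : Type} [Group G] {S : Type} [MulAction G S] {A : Type} [Monoid A]
    (χ : G →* A) (F : S → S) (m : ℕ) : ℕ :=
  Nat.card {O : MulAction.orbitRel.Quotient G S //
    ∃ x : S, (Quotient.mk'' x : MulAction.orbitRel.Quotient G S) = O ∧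
      F^[m] x ∈ MulAction.orbit G x ∧ ∀ g : G, g • x = x → χ g = 1}

section
variable {E G V : Type} [Field E] [Group G] [AddCommGroup V] [Module E V]

/-- The vectors on which the elements `k` of the subgroup `K` act as multiplication by `χ k`. -/
def charPart (σ : Representation E G V) (K : Subgroup G) (χ : K →* Eˣ) : Submodule E V where
  carrier := {v | ∀ k : K, σ (k : G) v = (χ k : E) • v}
  add_mem' := by
    intro v w hv hw k
    rw [map_add, hv k, hw k, smul_add]
  zero_mem' := by
    intro k
    rw [map_zero, smul_zero]
  smul_mem' := by
    intro c v hv k
    rw [map_smul, hv k, smul_comm]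

lemma charPart_stable {σ : Representation E G V} {f : Module.End E V}
    (hf : ∀ g, f * σ g = σ g * f) (K : Subgroup G) (χ : K →* Eˣ) :
    ∀ v ∈ charPart σ K χ, f v ∈ charPart σ K χ := by
  intro v hv k
  have h1 : σ (k : G) (f v) = f (σ (k : G) v) := by
    rw [← Module.End.mul_apply, ← hf, Module.End.mul_apply]
  rw [h1, hv k, map_smul]

/-- The endomorphism of `charPart` given by an endomorphism that commutes with the group. -/
noncomputable def onPart (σ : Representation E G V) (f : Module.End E V)
    (hf : ∀ g, f * σ g = σ g * f) (K : Subgroup G) (χ : K →* Eˣ) :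
    Module.End E (charPart σ K χ) :=
  f.restrict (charPart_stable hf K χ)

/-- The polynomial `∏ (1 - x T)`, the product over the eigenvalues `x` of `f`. -/
noncomputable def zpoly {U : Type} [AddCommGroup U] [Module E U] [FiniteDimensional E U]
    (f : Module.End E U) : E[X] :=
  (f.charpoly.roots.map fun x => 1 - C x * X).prod

end

/-- The reduction of coefficients which are polynomials in a root of unity that is mapped to `1`. -/
noncomputable def redHom (k : Type) [CommRing k] : ℤ[X] →+* k :=
  (Int.castRingHom k).comp (evalRingHom 1)

/-- Evaluation of such coefficients at the root of unity `μ`. -/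
noncomputable def evHom {E : Type} [Field E] (μ : E) : ℤ[X] →+* E :=
  (aeval μ : ℤ[X] →ₐ[ℤ] E).toRingHom

end Pool.Agent.Y134.CH
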