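import Pool.Agent.Y134.CH.Core

/-!
# Semisimplicity: from the parts of characters and the invariants to the whole space
-/

set_option autoImplicit false

namespace Pool.Agent.Y134.CH

open Finset Polynomial Pool.Agent.Y134.PG Module

section
variable {E G V : Type} [Field E] [CharZero E] [Group G] [AddCommGroup V] [Module E V]
  [FiniteDimensional E V]

lemma maxGen_le {φ : Module.End E V} {α : E}
    (h : ∀ u, (φ - α • (1 : Module.End E V)) ((φ - α • (1 : Module.End E V)) u) = 0 →
      (φ - α • (1 : Module.End E V)) u = 0) : φ.maxGenEigenspace α = φ.eigenspace α := by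
  apply le_antisymm
  · intro v hv
    obtain ⟨k, hk⟩ := (Module.End.mem_maxGenEigenspace _ _ _).1 hv
    rw [Module.End.mem_eigenspace_iff]
    have key : ∀ k : ℕ, ∀ v : V, ((φ - α • (1 : Module.End E V)) ^ k) v = 0 →
        (φ - α • (1 : Module.End E V)) v = 0 := by
      intro k
      induction k with
      | zero =>
        intro v hv
        rw [pow_zero, Module.End.one_apply] at hv
        rw [hv, map_zero]
      | succ k ih =>
        intro v hv
        rw [pow_succ, Module.End.mul_apply] at hv
        exact h v (ih _ hv)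
    have h1 := key k v hk
    rw [LinearMap.sub_apply, LinearMap.smul_apply, Module.End.one_apply, sub_eq_zero] at h1
    exact h1
  · exact (Module.End.genEigenspace φ α).mono le_top

/-- Transfer of semisimplicity for one eigenvalue. -/
theorem transfer [Finite G] (σ : Representation E G V) (φ : Module.End E V)
    (hφ : ∀ g, φ * σ g = σ g * φ) {ι : Type} (K : ι → Subgroup G) (χ : ∀ i, K i →* Eˣ)
    (hdet : ∀ R : Submodule E V, R ≠ ⊥ → (∀ g, ∀ v ∈ R, σ g v ∈ R) →
      (R ⊓ σ.invariants : Submodule E V) = ⊥ →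
        ∃ i, (R ⊓ charPart σ (K i) (χ i) : Submodule E V) ≠ ⊥)
    (α : E) (h1 : ∀ i, finrank E ((onPart σ φ hφ (K i) (χ i)).maxGenEigenspace α) ≤ 1)
    (h0 : (φ.maxGenEigenspace α ⊓ σ.invariants : Submodule E V) ≤ φ.eigenspace α) :
    φ.maxGenEigenspace α = φ.eigenspace α := by
  classical
  have : Fintype G := Fintype.ofFinite G
  apply maxGen_le
  set f : Module.End E V := φ - α • (1 : Module.End E V) with hf
  have hfg : ∀ g, f * σ g = σ g * f := by
    intro g
    rw [hf, sub_mul, mul_sub, hφ g, smul_mul_assoc, mul_smul_comm, one_mul, mul_one]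
  let R : Submodule E V := (LinearMap.ker (f * f)).map f
  have hR : ∀ w, w ∈ R ↔ ∃ u, f (f u) = 0 ∧ f u = w := by
    intro w
    rw [Submodule.mem_map]
    refine exists_congr fun u => ?_
    rw [LinearMap.mem_ker, Module.End.mul_apply]
  suffices hbot : R = ⊥ by
    intro u hu
    have h2 : f u ∈ R := (hR _).2 ⟨u, hu, rfl⟩
    rw [hbot, Submodule.mem_bot] at h2
    exact h2
  by_contra hne
  have hstab : ∀ g, ∀ v ∈ R, σ g v ∈ R := by
    intro g v hv
    obtain ⟨u, hu1, hu2⟩ := (hR v).1 hv
    have e1 : ∀ w, f (σ g w) = σ g (f w) := fun w => by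
      rw [← Module.End.mul_apply, hfg, Module.End.mul_apply]
    refine (hR _).2 ⟨σ g u, ?_, ?_⟩
    · rw [e1, e1, hu1, map_zero]
    · rw [e1, hu2]
  by_cases hinv : (R ⊓ σ.invariants : Submodule E V) = ⊥
  · obtain ⟨i, hi⟩ := hdet R hne hstab hinv
    rw [Submodule.ne_bot_iff] at hi
    obtain ⟨w, ⟨hw1, hw2⟩, hw0⟩ := hi
    obtain ⟨u, hu1, hu2⟩ := (hR w).1 hw1
    have : Fintype (K i) := Fintype.ofFinite (K i)
    set a := avg (tw σ (K i) (χ i)) with ha
    have hcomm : f * a = a * f := by
      apply avg_comm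
      intro k
      change f * ((((χ i k)⁻¹ : Eˣ) : E) • σ (k : G)) = ((((χ i k)⁻¹ : Eˣ) : E) • σ (k : G)) * f
      rw [mul_smul_comm, smul_mul_assoc, hfg]
    have ha1 : ∀ v, a v ∈ charPart σ (K i) (χ i) := by
      intro v
      rw [← tw_inv, Representation.mem_invariants]
      exact avg_inv _ v
    have ha2 : a w = w := by
      apply avg_apply_of_inv
      have h3 : w ∈ (tw σ (K i) (χ i)).invariants := by
        rw [tw_inv]
        exact hw2
      rwa [Representation.mem_invariants] at h3
    have e1 : ∀ v, f (a v) = a (f v) := fun v => by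
      rw [← Module.End.mul_apply, hcomm, Module.End.mul_apply]
    let u' : charPart σ (K i) (χ i) := ⟨a u, ha1 u⟩
    let w' : charPart σ (K i) (χ i) := ⟨w, hw2⟩
    set φ' := onPart σ φ hφ (K i) (χ i) with hφ'
    have e2 : ∀ v : charPart σ (K i) (χ i), (((φ' - α • (1 : Module.End E (charPart σ (K i) (χ i)))) v :
        charPart σ (K i) (χ i)) : V) = f v := by
      intro v
      rfl
    have h4 : (φ' - α • (1 : Module.End E (charPart σ (K i) (χ i)))) u' = w' := by
      apply Subtype.ext
      rw [e2]
      change f (a u) = w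
      rw [e1, hu2, ha2]
    have h5 : (φ' - α • (1 : Module.End E (charPart σ (K i) (χ i)))) w' = 0 := by
      apply Subtype.ext
      rw [e2]
      change f w = 0
      rw [← hu2, hu1]
    have hu' : u' ∈ φ'.maxGenEigenspace α := by
      rw [Module.End.mem_maxGenEigenspace]
      refine ⟨2, ?_⟩
      rw [pow_two, Module.End.mul_apply, h4, h5]
    have hw' : w' ∈ φ'.maxGenEigenspace α := by
      rw [Module.End.mem_maxGenEigenspace]
      exact ⟨1, by rw [pow_one, h5]⟩
    have hw'0 : w' ≠ 0 := fun h => hw0 (congrArg Subtype.val h)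
    have h6 := h1 i
    rw [← hφ', finrank_le_one_iff] at h6
    obtain ⟨v₀, hv₀⟩ := h6
    obtain ⟨c, hc⟩ := hv₀ ⟨w', hw'⟩
    obtain ⟨d, hd⟩ := hv₀ ⟨u', hu'⟩
    have hc' : c • (v₀ : charPart σ (K i) (χ i)) = w' := congrArg Subtype.val hc
    have hd' : d • (v₀ : charPart σ (K i) (χ i)) = u' := congrArg Subtype.val hd
    have hc0 : c ≠ 0 := by
      rintro rfl
      rw [zero_smul] at hc'
      exact hw'0 hc'.symm
    have h7 : (φ' - α • (1 : Module.End E (charPart σ (K i) (χ i)))) (v₀ : charPart σ (K i) (χ i)) = 0 := by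
      have h8 : c • ((φ' - α • (1 : Module.End E (charPart σ (K i) (χ i)))) (v₀ : charPart σ (K i) (χ i))) = 0 := by
        rw [← map_smul, hc', h5]
      exact (smul_eq_zero.1 h8).resolve_left hc0
    apply hw'0
    rw [← h4, ← hd', map_smul, h7, smul_zero]
  · have hi := hinv
    rw [← Ne, Submodule.ne_bot_iff] at hi
    obtain ⟨w, ⟨hw1, hw2⟩, hw0⟩ := hi
    obtain ⟨u, hu1, hu2⟩ := (hR w).1 hw1
    have hcomm : f * avg σ = avg σ * f := avg_comm σ hfg
    have e1 : ∀ v, f (avg σ v) = avg σ (f v) := fun v => by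
      rw [← Module.End.mul_apply, hcomm, Module.End.mul_apply]
    have ha2 : avg σ w = w := by
      apply avg_apply_of_inv
      have h3 : w ∈ σ.invariants := hw2
      rwa [Representation.mem_invariants] at h3
    have h2 : avg σ u ∈ (φ.maxGenEigenspace α ⊓ σ.invariants : Submodule E V) := by
      refine ⟨?_, ?_⟩
      · change avg σ u ∈ φ.maxGenEigenspace α
        rw [Module.End.mem_maxGenEigenspace]
        refine ⟨2, ?_⟩
        rw [pow_two, Module.End.mul_apply]
        change f (f (avg σ u)) = 0
        rw [e1, e1, hu1, map_zero]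
      · change avg σ u ∈ σ.invariants
        rw [Representation.mem_invariants]
        exact avg_inv σ u
    have h3 := h0 h2
    rw [Module.End.mem_eigenspace_iff] at h3
    apply hw0
    have h4 : f (avg σ u) = 0 := by
      rw [hf, LinearMap.sub_apply, LinearMap.smul_apply, Module.End.one_apply, h3, sub_self]
    rw [← ha2, ← hu2, ← e1, h4]

/-- Semisimplicity from the eigenvalues. -/
theorem semisimple_of [IsAlgClosed E] (φ : Module.End E V)
    (h : ∀ α, φ.maxGenEigenspace α = φ.eigenspace α) : φ.IsSemisimple := by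
  classical
  let q : E[X] := ∏ α ∈ φ.charpoly.roots.toFinset, (X - C α)
  have hq : Squarefree q := by
    have h1 : q.Separable := separable_prod_X_sub_C_iff'.2 fun x _ y _ h => h
    exact h1.squarefree
  refine Module.End.isSemisimple_of_squarefree_aeval_eq_zero hq ?_
  rw [← LinearMap.ker_eq_top, eq_top_iff, ← Module.End.iSup_maxGenEigenspace_eq_top φ]
  refine iSup_le fun α => ?_
  rw [h α]
  intro v hv
  rw [Module.End.mem_eigenspace_iff] at hv
  by_cases hv0 : v = 0
  · rw [hv0]
    exact Submodule.zero_mem _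
  have hα : α ∈ φ.charpoly.roots := by
    rw [mem_roots (LinearMap.charpoly_monic φ).ne_zero,
      ← Module.End.hasEigenvalue_iff_isRoot_charpoly]
    exact Module.End.hasEigenvalue_of_hasEigenvector ⟨Module.End.mem_eigenspace_iff.2 hv, hv0⟩
  rw [LinearMap.mem_ker]
  have h1 : q = (∏ β ∈ φ.charpoly.roots.toFinset.erase α, (X - C β)) * (X - C α) :=
    (Finset.prod_erase_mul _ _ (Multiset.mem_toFinset.2 hα)).symm
  rw [h1, map_mul, Module.End.mul_apply]
  have h2 : (aeval φ (X - C α)) v = 0 := by
    rw [map_sub, aeval_X, aeval_C, LinearMap.sub_apply, Module.algebraMap_end_apply, hv, sub_self]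
  rw [h2, map_zero]

end

end Pool.Agent.Y134.CH
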