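import Pool.Agent.Y134.CH.Mult
import Pool.Agent.Y134.CH.SS

/-!
# Multiplicities on the part of a character
-/

set_option autoImplicit false

namespace Pool.Agent.Y134.CH

open Finset Polynomial Pool.Agent.Y134.PG Pool.Agent.Y134.Cyc Module

section
variable {p s : ℕ} {G : Type} [Group G] [Finite G] {S : Type} [MulAction G S]
    {F : S → S} {E : Type} [Field E] [CharZero E] [IsAlgClosed E]
    {V : Type} [AddCommGroup V] [Module E V] [FiniteDimensional E V]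
    {W : Type} [AddCommGroup W] [Module E W] [FiniteDimensional E W]

/-- The multiplicities are at most one if the reduction is squarefree of full degree. -/
theorem mult_one (hp : p.Prime) (hF : Function.Injective F)
    (hc : ∀ (g : G) (x : S), F (g • x) = g • F x)
    (hfin : ∀ m, 1 ≤ m → Finite {x : S // F^[m] x = x})
    (σ : Representation E G V) (φ : Module.End E V) (hφ : ∀ g, φ * σ g = σ g * φ)
    (τ : Representation E G W) (ψ : Module.End E W) (hψ : ∀ g, ψ * τ g = τ g * ψ)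
    (c : ℕ → E)
    (htr : ∀ m, 1 ≤ m → ∀ g : G, (Nat.card {x : S // F^[m] x = g • x} : E)
      = c m + LinearMap.trace E V (σ g * φ ^ m) - LinearMap.trace E W (τ g * ψ ^ m))
    (K : Subgroup G) (χ : K →* Eˣ) (hχ : ∀ k, χ k ^ p ^ s = 1) (hχ1 : χ ≠ 1)
    {μ : E} (hμ : IsPrimitiveRoot μ (p ^ s))
    (P₁ P₂ : ℤ[X]) (P₃ : ℤ[X][X]) (hP₁ : P₁.coeff 0 = 1) (hP₂ : P₂.coeff 0 = 1)
    (B₁ B₂ : Multiset E)
    (hB₁ : P₁.map (Int.castRingHom E) = (B₁.map fun x => 1 - C x * X).prod)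
    (hB₂ : P₂.map (Int.castRingHom E) = (B₂.map fun x => 1 - C x * X).prod)
    (hP₃ : P₃.map (evHom μ) = zpoly (onPart τ ψ hψ K χ))
    (hN : ∀ m, 1 ≤ m → (goodOrbits χ F m : E)
      = (B₁.map fun x => x ^ m).sum - (B₂.map fun x => x ^ m).sum)
    (H : (ZMod p)[X])
    (hH : H * P₂.map (Int.castRingHom (ZMod p))
      = P₁.map (Int.castRingHom (ZMod p)) * P₃.map (redHom (ZMod p)))
    (hsq : Squarefree H) (hdeg : H.natDegree = finrank E (charPart σ K χ)) (α : E) :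
    finrank E ((onPart σ φ hφ K χ).maxGenEigenspace α) ≤ 1 := by
  classical
  have hfact : Fact p.Prime := ⟨hp⟩
  obtain ⟨k, _, _, θ, A', hA', hprod, -⟩ := core hp hF hc hfin σ φ hφ τ ψ hψ c htr K χ hχ hχ1 hμ
    P₁ P₂ P₃ hP₁ hP₂ B₁ B₂ hB₁ hB₂ hP₃ hN H hH
  let ι : ZMod p →+* k := ZMod.castHom (dvd_refl p) k
  have hsep : H.Separable := PerfectField.separable_iff_squarefree.mpr hsq
  have hsq' : Squarefree (H.map ι) := (hsep.map).squarefree
  have hcard : (onPart σ φ hφ K χ).charpoly.roots.card = finrank E (charPart σ K χ) := by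
    rw [← (IsAlgClosed.splits (onPart σ φ hφ K χ).charpoly).natDegree_eq_card_roots,
      LinearMap.charpoly_natDegree]
  have hnodup : (onPart σ φ hφ K χ).charpoly.roots.Nodup := by
    refine Pool.Agent.W528.HS.nodup_of_squarefree θ hA' hsq' ?_ hprod
    rw [natDegree_map, hdeg, hcard]
  rw [LinearMap.finrank_maxGenEigenspace_eq, ← count_roots]
  exact Multiset.nodup_iff_count_le_one.1 hnodup α

/-- The multiplicities of the eigenvalues `Q ζ`. -/
theorem mult_le (hp : p.Prime) (hF : Function.Injective F)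
    (hc : ∀ (g : G) (x : S), F (g • x) = g • F x)
    (hfin : ∀ m, 1 ≤ m → Finite {x : S // F^[m] x = x})
    (σ : Representation E G V) (φ : Module.End E V) (hφ : ∀ g, φ * σ g = σ g * φ)
    (τ : Representation E G W) (ψ : Module.End E W) (hψ : ∀ g, ψ * τ g = τ g * ψ)
    (c : ℕ → E)
    (htr : ∀ m, 1 ≤ m → ∀ g : G, (Nat.card {x : S // F^[m] x = g • x} : E)
      = c m + LinearMap.trace E V (σ g * φ ^ m) - LinearMap.trace E W (τ g * ψ ^ m))
    (K : Subgroup G) (χ : K →* Eˣ) (hχ : ∀ k, χ k ^ p ^ s = 1) (hχ1 : χ ≠ 1)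
    {μ : E} (hμ : IsPrimitiveRoot μ (p ^ s))
    (P₁ P₂ : ℤ[X]) (P₃ : ℤ[X][X]) (hP₁ : P₁.coeff 0 = 1) (hP₂ : P₂.coeff 0 = 1)
    (B₁ B₂ : Multiset E)
    (hB₁ : P₁.map (Int.castRingHom E) = (B₁.map fun x => 1 - C x * X).prod)
    (hB₂ : P₂.map (Int.castRingHom E) = (B₂.map fun x => 1 - C x * X).prod)
    (hP₃ : P₃.map (evHom μ) = zpoly (onPart τ ψ hψ K χ))
    (hN : ∀ m, 1 ≤ m → (goodOrbits χ F m : E)
      = (B₁.map fun x => x ^ m).sum - (B₂.map fun x => x ^ m).sum)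
    (H : (ZMod p)[X])
    (hH : H * P₂.map (Int.castRingHom (ZMod p))
      = P₁.map (Int.castRingHom (ZMod p)) * P₃.map (redHom (ZMod p)))
    {Q : ℕ} (hQ : Q ≠ 0) {n : ℕ} (hn : 1 ≤ n) {e : ℕ}
    (he : ∀ M, M ∣ n → ¬ p ∣ M → ¬ cyc (ZMod p) (Q : ZMod p) M ^ (e + 1) ∣ H) {α : E}
    (hα : α ^ n = (Q : E) ^ n) :
    finrank E ((onPart σ φ hφ K χ).maxGenEigenspace α) ≤ e := by
  classical
  obtain ⟨k, _, _, θ, A', hA', hprod, G', hG'⟩ := core hp hF hc hfin σ φ hφ τ ψ hψ c htr K χ hχ hχ1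
    hμ P₁ P₂ P₃ hP₁ hP₂ B₁ B₂ hB₁ hB₂ hP₃ hN H hH
  rw [LinearMap.finrank_maxGenEigenspace_eq, ← count_roots]
  exact count_le hp hμ θ _ A' hA' hG' hprod hQ hn he hα

end

end Pool.Agent.Y134.CH
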