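import Pool.Agent.Y134.CH.Core
import Pool.Agent.Y134.PG.Peel

/-!
# Multiplicities of the eigenvalues `Q ζ` and cyclotomic factors modulo `p`
-/

set_option autoImplicit false

namespace Pool.Agent.Y134.CH

open Finset Polynomial Pool.Agent.Y134.PG Pool.Agent.W528.HS Pool.Agent.Y134.Cyc

/-- With `Q ζ η` also `Q ζ ^ u η` is an eigenvalue, of at least the same multiplicity. -/
theorem count_conj₂ {E : Type} [Field E] [CharZero E] [IsAlgClosed E] [DecidableEq E] {p s : ℕ}
    (hp : p.Prime) {μ : E} (hμ : IsPrimitiveRoot μ (p ^ s)) (A : Multiset E) {G : ℤ[X][X]}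
    (hG : G.map (ev μ) = (A.map fun x => X - C x).prod) (Q : ℕ) {M : ℕ}
    (hM : 0 < M) (hMp : ¬ p ∣ M) {ζ : E} (hζ : IsPrimitiveRoot ζ M) (b : ℕ) {η : E}
    (hη : η ^ p ^ b = 1) {u : ℕ} (hu : u.Coprime M) :
    A.count ((Q : E) * (ζ * η)) ≤ A.count ((Q : E) * (ζ ^ u * η)) := by
  set c := max s b with hc
  have hpc : 0 < p ^ c := pow_pos hp.pos c
  have hn : 0 < M * p ^ c := Nat.mul_pos hM hpc
  obtain ⟨ρ, hρ⟩ := exists_primitive E (M * p ^ c) hn
  have hμ1 : μ ^ (M * p ^ c) = 1 := by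
    obtain ⟨e, he⟩ := pow_dvd_pow p (le_max_left s b)
    rw [← hc] at he
    rw [he, mul_comm M, mul_assoc, pow_mul, hμ.pow_eq_one, one_pow]
  have hη1 : η ^ p ^ c = 1 := by
    obtain ⟨e, he⟩ := pow_dvd_pow p (le_max_right s b)
    rw [← hc] at he
    rw [he, pow_mul, hη, one_pow]
  have hy1 : (ζ * η) ^ (M * p ^ c) = 1 := by
    rw [mul_pow, pow_mul, hζ.pow_eq_one, one_pow, mul_comm M, pow_mul, hη1, one_pow, one_mul]
  have : NeZero (M * p ^ c) := ⟨hn.ne'⟩
  obtain ⟨i, -, hi⟩ := hρ.eq_pow_of_pow_eq_one hμ1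
  obtain ⟨j, -, hj⟩ := hρ.eq_pow_of_pow_eq_one hy1
  have hcop : Nat.Coprime M (p ^ c) :=
    Nat.Coprime.pow_right c ((Nat.Prime.coprime_iff_not_dvd hp).2 hMp).symm
  obtain ⟨t, ht1, ht2⟩ := Nat.chineseRemainder hcop u 1
  have htc : t.Coprime (M * p ^ c) := by
    apply Nat.Coprime.mul_right
    · exact (Nat.ModEq.gcd_eq ht1).trans hu
    · exact (Nat.ModEq.gcd_eq ht2).trans (Nat.gcd_one_left _)
  have hμt : μ ^ t = μ := by
    have h1 : t ≡ 1 [MOD p ^ s] := ht2.of_dvd (pow_dvd_pow p (le_max_left s b))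
    have h2 := pow_eq_pow_of_modEq h1 hμ.pow_eq_one
    rwa [pow_one] at h2
  have hηt : η ^ t = η := by
    have h2 := pow_eq_pow_of_modEq ht2 hη1
    rwa [pow_one] at h2
  have hζt : ζ ^ t = ζ ^ u := pow_eq_pow_of_modEq ht1 hζ.pow_eq_one
  have hμi : (ρ ^ t) ^ i = μ := by rw [← pow_mul, mul_comm, pow_mul, hi, hμt]
  have hyj : (ρ ^ t) ^ j = ζ ^ u * η := by
    rw [← pow_mul, mul_comm, pow_mul, hj, mul_pow, hζt, hηt]
  have hne : (A.map fun x => X - C x).prod ≠ (0 : E[X]) :=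
    (monic_multiset_prod_of_monic _ _ fun x _ => monic_X_sub_C x).ne_zero
  have h3 := conj_mult hn hρ i j Q t htc G (by rw [hi, hG]; exact hne)
    (by rw [hμi, hG]; exact hne)
  rw [hi, hμi, hj, hyj, mult_eq_count hG, mult_eq_count hG] at h3
  exact h3

theorem cyc_dvd₂ {p : ℕ} (hp : p.Prime) {E : Type} [Field E] [CharZero E] [DecidableEq E]
    {k : Type} [Field k] [CharP k p] (θ : (integralClosure ℤ E).toSubring →+* k)
    (A : Multiset E) (A' : Multiset (integralClosure ℤ E).toSubring)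
    (hA' : A'.map Subtype.val = A) (Q : ℕ) {M : ℕ} (hM : 0 < M)
    (hMp : ¬ p ∣ M) {ζ : E} (hζ : IsPrimitiveRoot ζ M) (b : ℕ)
    (hconj : ∀ η : E, η ^ p ^ b = 1 → ∀ u : ℕ, u.Coprime M →
      A.count ((Q : E) * (ζ * η)) ≤ A.count ((Q : E) * (ζ ^ u * η))) :
    cyc k (Q : k) M ^ (∑ η ∈ nthRootsFinset (p ^ b) (1 : E), A.count ((Q : E) * (ζ * η)))
      ∣ (A'.map fun x => 1 - C (θ x) * X).prod := by
  classical
  by_cases hQk : (Q : k) = 0
  · have h1 : IsUnit (cyc k (Q : k) M) := by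
      unfold cyc
      rw [hQk, C_0, zero_mul, comp_zero, isUnit_C, isUnit_iff_ne_zero, ← coeff_zero_eq_eval_zero]
      rcases Nat.lt_or_ge 1 M with h | h
      · rw [cyclotomic_coeff_zero k h]
        exact one_ne_zero
      · have hM1 : M = 1 := by omega
        rw [hM1]
        simp
    exact (h1.pow _).dvd
  have hfact : Fact p.Prime := ⟨hp⟩
  have hpb : 0 < p ^ b := pow_pos hp.pos b
  have hQ0 : (Q : E) ≠ 0 := by
    intro h
    have : Q = 0 := by exact_mod_cast h
    rw [this, Nat.cast_zero] at hQk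
    exact hQk rfl
  have hM' : NeZero M := ⟨hM.ne'⟩
  have hMk : NeZero (M : k) := ⟨by rwa [Ne, CharP.cast_eq_zero_iff k p M]⟩
  -- the reduction of `ζ`
  have hζi : IsIntegral ℤ ζ := hζ.isIntegral hM
  set ζ' : (integralClosure ℤ E).toSubring := ⟨ζ, hζi⟩ with hζ'
  have hζk : IsPrimitiveRoot (θ ζ') M := by
    rw [← isRoot_cyclotomic_iff]
    have h1 : (cyclotomic M (integralClosure ℤ E).toSubring).IsRoot ζ' := by
      have h2 : (cyclotomic M E).IsRoot ζ := hζ.isRoot_cyclotomic hM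
      rw [IsRoot.def] at h2 ⊢
      apply Subtype.ext
      have h3 : ((eval ζ' (cyclotomic M (integralClosure ℤ E).toSubring) :
          (integralClosure ℤ E).toSubring) : E) = eval ζ (cyclotomic M E) := by
        rw [← map_cyclotomic M (integralClosure ℤ E).toSubring.subtype, eval_map]
        exact (eval₂_at_apply (integralClosure ℤ E).toSubring.subtype ζ').symm
      rw [h3, h2]
      rfl
    rw [← map_cyclotomic M θ]
    exact h1.map
  have hcyc : cyc k (Q : k) M = ∏ w ∈ primitiveRoots M k, (C (Q : k) * (X - C (w * (Q : k)⁻¹))) := by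
    unfold cyc
    rw [cyclotomic_eq_prod_X_sub_primitiveRoots hζk, Polynomial.prod_comp]
    refine prod_congr rfl fun w _ => ?_
    rw [sub_comp, X_comp, C_comp, mul_sub, ← C_mul]
    congr 2
    field_simp
  rw [hcyc, ← Finset.prod_pow]
  have hunit : IsUnit (C (Q : k)) := isUnit_C.2 (isUnit_iff_ne_zero.2 hQk)
  apply Finset.prod_dvd_of_coprime
  · intro w _ w' _ hne
    have h1 : IsCoprime (X - C (w * (Q : k)⁻¹)) (X - C (w' * (Q : k)⁻¹)) := by
      apply isCoprime_X_sub_C_of_isUnit_sub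
      rw [← sub_mul]
      exact (mul_ne_zero (sub_ne_zero.2 hne) (inv_ne_zero hQk)).isUnit
    exact ((isCoprime_mul_unit_left_left hunit _ _).2
      ((isCoprime_mul_unit_left_right hunit _ _).2 h1)).pow
  · intro w hw
    rw [mem_primitiveRoots hM] at hw
    have hw0 : w ≠ 0 := hw.ne_zero hM.ne'
    obtain ⟨u, -, hu, huw⟩ := (hζk.isPrimitiveRoot_iff).1 hw.inv
    have h1 : (X - C (w * (Q : k)⁻¹) : k[X]) = X - C ((Q : k) * w⁻¹)⁻¹ := by
      rw [mul_inv, inv_inv, mul_comm]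
    rw [mul_pow, h1]
    refine (IsUnit.mul_left_dvd (hunit.pow _)).2 ?_
    apply pow_card_dvd A' (fun x => θ x) (mul_ne_zero hQk (inv_ne_zero hw0))
    have hS : ∀ η ∈ nthRootsFinset (p ^ b) (1 : E), IsIntegral ℤ ((Q : E) * (ζ ^ u * η)) := by
      intro η hη
      rw [mem_nthRootsFinset hpb] at hη
      have h2 : IsIntegral ℤ η := IsIntegral.of_pow hpb (by rw [hη]; exact isIntegral_one)
      have h3 : IsIntegral ℤ (Q : E) := isIntegral_natCast Q
      exact h3.mul ((hζi.pow u).mul h2)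
    have hinj : ∀ η ∈ nthRootsFinset (p ^ b) (1 : E), ∀ η' ∈ nthRootsFinset (p ^ b) (1 : E),
        (Q : E) * (ζ ^ u * η) = (Q : E) * (ζ ^ u * η') → η = η' := by
      intro η _ η' _ h
      exact mul_left_cancel₀ (pow_ne_zero u (hζ.ne_zero hM.ne')) (mul_left_cancel₀ hQ0 h)
    have h4 := card_filter_ge θ A A' hA'
      ((nthRootsFinset (p ^ b) (1 : E)).image fun η => (Q : E) * (ζ ^ u * η)) (by
        intro y hy
        rw [mem_image] at hy
        obtain ⟨η, hη, rfl⟩ := hy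
        exact hS η hη) ((Q : k) * w⁻¹) (by
        intro y hy
        have hy' := hy
        rw [mem_image] at hy'
        obtain ⟨η, hη, rfl⟩ := hy'
        have h2 : IsIntegral ℤ η := IsIntegral.of_pow hpb (by
          rw [mem_nthRootsFinset hpb] at hη
          rw [hη]; exact isIntegral_one)
        rw [mem_nthRootsFinset hpb] at hη
        set η' : (integralClosure ℤ E).toSubring := ⟨η, h2⟩ with hη'
        have h5 : θ η' = 1 := by
          have h6 : η' ^ p ^ b = 1 := Subtype.ext (by push_cast; exact hη)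
          have h7 : (θ η' - 1) ^ p ^ b = 0 := by
            rw [sub_pow_char_pow, ← map_pow, h6, map_one, one_pow, sub_self]
          exact sub_eq_zero.mp ((pow_eq_zero_iff hpb.ne').mp h7)
        have h8 : (⟨(Q : E) * (ζ ^ u * η), hS η (by rwa [mem_nthRootsFinset hpb])⟩ :
            (integralClosure ℤ E).toSubring) = (Q : (integralClosure ℤ E).toSubring)
              * (ζ' ^ u * η') := Subtype.ext (by push_cast; rfl)
        rw [h8, map_mul, map_mul, map_pow, map_natCast, h5, huw]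
        ring)
    rw [sum_image hinj] at h4
    refine le_trans ?_ h4
    refine sum_le_sum fun η hη => ?_
    rw [mem_nthRootsFinset hpb] at hη
    exact hconj η hη u hu

/-- The bound for the multiplicity of an eigenvalue `Q ξ`, `ξ` a root of unity. -/
theorem count_le {p s : ℕ} (hp : p.Prime) {E : Type} [Field E] [CharZero E] [IsAlgClosed E]
    [DecidableEq E] {μ : E} (hμ : IsPrimitiveRoot μ (p ^ s))
    {k : Type} [Field k] [CharP k p] (θ : (integralClosure ℤ E).toSubring →+* k)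
    (A : Multiset E) (A' : Multiset (integralClosure ℤ E).toSubring)
    (hA' : A'.map Subtype.val = A) {G : ℤ[X][X]}
    (hG : G.map (ev μ) = (A.map fun x => X - C x).prod)
    {H : (ZMod p)[X]}
    (hH : (A'.map fun x => 1 - C (θ x) * X).prod = H.map (ZMod.castHom (dvd_refl p) k))
    {Q : ℕ} (hQ : Q ≠ 0) {n : ℕ} (hn : 1 ≤ n) {e : ℕ}
    (he : ∀ M, M ∣ n → ¬ p ∣ M → ¬ cyc (ZMod p) (Q : ZMod p) M ^ (e + 1) ∣ H) {α : E}
    (hα : α ^ n = (Q : E) ^ n) : A.count α ≤ e := by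
  classical
  have hfact : Fact p.Prime := ⟨hp⟩
  have hQE : (Q : E) ≠ 0 := Nat.cast_ne_zero.2 hQ
  obtain ⟨M, c, ζ, η, hMn, hMp, hζ, hη, hy⟩ := decomp hp hn (y := α / Q) (by
    rw [div_pow, hα, div_self (pow_ne_zero n hQE)])
  have hM : 0 < M := Nat.pos_of_dvd_of_pos hMn hn
  have hα2 : α = Q * (ζ * η) := by rw [← hy]; field_simp
  have h1 := cyc_dvd₂ hp θ A A' hA' Q hM hMp hζ c
    (fun η' hη' u hu => count_conj₂ hp hμ A hG Q hM hMp hζ c hη' hu)
  have h2 : cyc k (Q : k) M = (cyc (ZMod p) (Q : ZMod p) M).map (ZMod.castHom (dvd_refl p) k) := by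
    rw [cyc_map, map_natCast]
  rw [hH, h2, ← Polynomial.map_pow, map_dvd_map'] at h1
  by_contra hlt
  rw [not_le] at hlt
  apply he M hMn hMp
  refine (pow_dvd_pow _ ?_).trans h1
  refine Nat.succ_le_of_lt (lt_of_lt_of_le hlt ?_)
  rw [hα2]
  exact single_le_sum (f := fun η => A.count ((Q : E) * (ζ * η))) (fun _ _ => Nat.zero_le _)
    ((mem_nthRootsFinset (pow_pos hp.pos c) 1).2 hη)

end Pool.Agent.Y134.CH
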