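import Pool.Agent.Y134.CH.Defs
import Pool.Agent.Y134.PG.Burn
import Pool.Agent.W528.HS.Stm

/-!
# Orbits of a finite group with the values of a character
-/

set_option autoImplicit false

namespace Pool.Agent.Y134.CH

open Finset Function Pool.Agent.Y134.PG Pool.Agent.W528.HS

section
variable {G : Type} [Group G] {S : Type} [MulAction G S] {E : Type} [Field E]

/-- `χ` is trivial on the stabilizer of `x`. -/
def Good (χ : G →* Eˣ) (x : S) : Prop := ∀ g : G, g • x = x → χ g = 1

open Classical in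
/-- The value of the character at `F ^ n`. -/
noncomputable def val (χ : G →* Eˣ) (F : S → S) (n : ℕ) (x : S) : E :=
  if h : ∃ g : G, F^[n] x = g • x then ((χ h.choose)⁻¹ : Eˣ) else 0

variable {χ : G →* Eˣ} {F : S → S}

lemma val_eq {n : ℕ} {x : S} (hx : Good χ x) {g : G} (hg : F^[n] x = g • x) :
    val χ F n x = ((χ g)⁻¹ : Eˣ) := by
  have h : ∃ g : G, F^[n] x = g • x := ⟨g, hg⟩
  unfold val
  rw [dif_pos h]
  have h1 : (g⁻¹ * h.choose) • x = x := by
    rw [mul_smul, ← h.choose_spec, hg, inv_smul_smul]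
  have h2 := hx _ h1
  rw [map_mul, map_inv, inv_mul_eq_one] at h2
  rw [← h2]

lemma good_smul {x : S} (hx : Good χ x) (h : G) : Good χ (h • x) := by
  intro g hg
  have h1 : (h⁻¹ * g * h) • x = x := by
    rw [mul_smul, mul_smul, hg, inv_smul_smul]
  have h2 := hx _ h1
  rw [map_mul, map_mul, map_inv, mul_right_comm, inv_mul_cancel, one_mul] at h2
  exact h2

lemma good_of_orbit {x y : S} (hx : Good χ x) (h : y ∈ MulAction.orbit G x) : Good χ y := by
  obtain ⟨g, rfl⟩ := h
  exact good_smul hx g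

variable (hc : ∀ (g : G) (x : S), F (g • x) = g • F x)
include hc

lemma val_smul {n : ℕ} {x : S} (hx : Good χ x) (h : G) : val χ F n (h • x) = val χ F n x := by
  by_cases hn : ∃ g : G, F^[n] x = g • x
  · obtain ⟨g, hg⟩ := hn
    have h1 : F^[n] (h • x) = (h * g * h⁻¹) • (h • x) := by
      rw [iterate_comm hc, hg, smul_smul, smul_smul, inv_mul_cancel_right]
    rw [val_eq hx hg, val_eq (good_smul hx h) h1]
    congr 2
    rw [map_mul, map_mul, map_inv, mul_right_comm, mul_inv_cancel, one_mul]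
  · have hn' : ¬ ∃ g : G, F^[n] (h • x) = g • (h • x) := by
      rintro ⟨g, hg⟩
      refine hn ⟨h⁻¹ * g * h, ?_⟩
      rw [iterate_comm hc] at hg
      rw [mul_smul, mul_smul, ← hg, inv_smul_smul]
    unfold val
    rw [dif_neg hn, dif_neg hn']

lemma val_orbit {n : ℕ} {x y : S} (hx : Good χ x) (h : y ∈ MulAction.orbit G x) :
    val χ F n y = val χ F n x := by
  obtain ⟨g, rfl⟩ := h
  exact val_smul hc hx g

lemma good_F (hF : Injective F) {x : S} : Good χ (F x) ↔ Good χ x := by
  constructor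
  · intro h g hg
    apply h g
    rw [← hc, hg]
  · intro h g hg
    apply h g
    rw [← hc] at hg
    exact hF hg

lemma val_F (hF : Injective F) {n : ℕ} {x : S} (hx : Good χ x) :
    val χ F n (F x) = val χ F n x := by
  by_cases hn : ∃ g : G, F^[n] x = g • x
  · obtain ⟨g, hg⟩ := hn
    have h1 : F^[n] (F x) = g • F x := by
      rw [← iterate_succ_apply, iterate_succ_apply', hg, hc]
    rw [val_eq hx hg, val_eq ((good_F hc hF).2 hx) h1]
  · have hn' : ¬ ∃ g : G, F^[n] (F x) = g • F x := by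
      rintro ⟨g, hg⟩
      refine hn ⟨g, hF ?_⟩
      rw [← iterate_succ_apply, iterate_succ_apply'] at hg
      rw [hg, hc]
    unfold val
    rw [dif_neg hn, dif_neg hn']

lemma val_mul {d : ℕ} {x : S} (hx : Good χ x) {g : G} (hg : F^[d] x = g • x) (k : ℕ) :
    val χ F (d * k) x = val χ F d x ^ k := by
  rw [val_eq hx hg, val_eq hx (iterate_mul_smul hc hg k), map_pow, ← inv_pow,
    Units.val_pow_eq_pow_val]

end

section
variable {G : Type} [Group G] [Fintype G] {S : Type} [MulAction G S] {E : Type} [Field E]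
  {χ : G →* Eˣ} {F : S → S}

open Classical in
/-- The sum over the elements `g` with `F ^ n x = g x`. -/
lemma sum_coset {n : ℕ} {x : S} (h : F^[n] x ∈ MulAction.orbit G x) :
    ∑ g : G, (if F^[n] x = g • x then (((χ g)⁻¹ : Eˣ) : E) else 0)
      = if Good χ x then (Nat.card (MulAction.stabilizer G x) : E) * val χ F n x else 0 := by
  obtain ⟨g₀, hg₀'⟩ := h
  have hg₀ : F^[n] x = g₀ • x := hg₀'.symm
  have h1 : ∑ g : G, (if F^[n] x = g • x then (((χ g)⁻¹ : Eˣ) : E) else 0)
      = (((χ g₀)⁻¹ : Eˣ) : E) * ∑ h : G, (if h • x = x then (((χ h)⁻¹ : Eˣ) : E) else 0) := by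
    rw [mul_sum]
    refine (Fintype.sum_equiv (Equiv.mulLeft g₀) _ _ fun h => ?_).symm
    rw [Equiv.coe_mulLeft, mul_smul, hg₀, smul_left_cancel_iff]
    by_cases hh : h • x = x
    · rw [if_pos hh, if_pos hh.symm, map_mul, mul_inv, Units.val_mul]
    · rw [if_neg hh, if_neg (Ne.symm hh), mul_zero]
  rw [h1]
  split_ifs with hx
  · have h2 : ∑ h : G, (if h • x = x then (((χ h)⁻¹ : Eˣ) : E) else 0)
        = ∑ h : G, (if h • x = x then (1 : E) else 0) := by
      refine sum_congr rfl fun h _ => ?_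
      by_cases hh : h • x = x
      · rw [if_pos hh, if_pos hh, hx h hh, inv_one, Units.val_one]
      · rw [if_neg hh, if_neg hh]
    rw [h2, sum_boole, val_eq hx hg₀, mul_comm]
    congr 2
    rw [Nat.card_eq_fintype_card, ← Fintype.card_subtype]
    exact Fintype.card_congr (Equiv.subtypeEquivRight fun h => by
      rw [MulAction.mem_stabilizer_iff])
  · have hx' : ∃ k : G, k • x = x ∧ χ k ≠ 1 := by
      by_contra hcon
      push Not at hcon
      exact hx fun g hg => hcon g hg
    obtain ⟨k, hk, hk1⟩ := hx'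
    have h2 : (((χ k)⁻¹ : Eˣ) : E) * ∑ h : G, (if h • x = x then (((χ h)⁻¹ : Eˣ) : E) else 0)
        = ∑ h : G, (if h • x = x then (((χ h)⁻¹ : Eˣ) : E) else 0) := by
      rw [mul_sum]
      refine Fintype.sum_equiv (Equiv.mulLeft k) _ _ fun h => ?_
      rw [Equiv.coe_mulLeft, mul_smul]
      by_cases hh : h • x = x
      · rw [if_pos hh, hh, if_pos hk, map_mul, mul_inv, Units.val_mul]
      · rw [if_neg hh, if_neg, mul_zero]
        intro h3
        apply hh
        have h4 : k • h • x = k • x := h3.trans hk.symm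
        exact (smul_left_cancel_iff k).1 h4
    have h3 : ((((χ k)⁻¹ : Eˣ) : E) - 1)
        * ∑ h : G, (if h • x = x then (((χ h)⁻¹ : Eˣ) : E) else 0) = 0 := by
      rw [sub_mul, one_mul, h2, sub_self]
    rcases mul_eq_zero.1 h3 with h4 | h4
    · exfalso
      apply hk1
      rw [sub_eq_zero] at h4
      have h5 : (χ k)⁻¹ = 1 := Units.ext h4
      rwa [inv_eq_one] at h5
    · rw [h4, mul_zero]

end

end Pool.Agent.Y134.CH
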