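import Pool.Agent.Y134.CH.Main
import Pool.Agent.Y134.Two.Iso

/-!
# Parity of the multiplicities of the eigenvalues `± c` of a similitude
-/

set_option autoImplicit false

namespace Pool.Agent.Y134.CH

open Polynomial Module Pool.Agent.Y134.Two

lemma pm_multiset {E : Type} [Field E] [CharZero E] [DecidableEq E] (A : Multiset E) :
    (∀ x ∈ A, x = 1 ∨ x = -1) →
      A.prod = (-1) ^ A.count (-1) ∧ A.card = A.count 1 + A.count (-1) := by
  have hne : (1 : E) ≠ -1 := by
    intro h
    have h1 : (2 : E) = 0 := by linear_combination h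
    exact two_ne_zero h1
  induction A using Multiset.induction_on with
  | empty => simp
  | cons a A ih =>
    intro h
    obtain ⟨h1, h2⟩ := ih fun x hx => h x (Multiset.mem_cons_of_mem hx)
    rcases h a (Multiset.mem_cons_self a A) with rfl | rfl
    · rw [Multiset.prod_cons, Multiset.card_cons, Multiset.count_cons_self,
        Multiset.count_cons_of_ne hne.symm, h1, h2, one_mul]
      exact ⟨rfl, by omega⟩
    · rw [Multiset.prod_cons, Multiset.card_cons, Multiset.count_cons_self,
        Multiset.count_cons_of_ne hne, h1, h2, pow_succ]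
      exact ⟨by ring, by omega⟩

lemma parity_multiset {E : Type} [Field E] [CharZero E] [DecidableEq E] : ∀ (n : ℕ)
    (A : Multiset E), A.card = n → (0 : E) ∉ A → (∀ α : E, A.count α = A.count α⁻¹) →
      A.prod = (-1) ^ A.count (-1) ∧ A.card % 2 = (A.count 1 + A.count (-1)) % 2 := by
  intro n
  induction n using Nat.strong_induction_on with
  | _ n ih =>
    intro A hA h0 hinv
    by_cases hall : ∀ x ∈ A, x = 1 ∨ x = -1
    · obtain ⟨h1, h2⟩ := pm_multiset A hall
      exact ⟨h1, by rw [h2]⟩
    · push Not at hall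
      obtain ⟨x, hx, hx1, hx2⟩ := hall
      have hx0 : x ≠ 0 := by
        rintro rfl
        exact h0 hx
      have hxx : x⁻¹ ≠ x := by
        intro h
        have h1 : x * x = 1 := by
          nth_rewrite 1 [← h]
          exact inv_mul_cancel₀ hx0
        have h2 : (x - 1) * (x + 1) = 0 := by linear_combination h1
        rcases mul_eq_zero.1 h2 with h3 | h3
        · exact hx1 (sub_eq_zero.1 h3)
        · exact hx2 (eq_neg_of_add_eq_zero_left h3)
      obtain ⟨A₁, rfl⟩ := Multiset.exists_cons_of_mem hx
      have hx' : x⁻¹ ∈ A₁ := by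
        have h1 := hinv x
        rw [Multiset.count_cons_self, Multiset.count_cons_of_ne hxx] at h1
        exact Multiset.count_pos.1 (by omega)
      obtain ⟨A₂, rfl⟩ := Multiset.exists_cons_of_mem hx'
      have hcount : ∀ α : E, A₂.count α = A₂.count α⁻¹ := by
        intro α
        have h1 := hinv α
        by_cases e1 : α = x
        · subst e1
          rw [Multiset.count_cons_self, Multiset.count_cons_of_ne hxx.symm,
            Multiset.count_cons_of_ne hxx, Multiset.count_cons_self] at h1
          omega
        · by_cases e2 : α = x⁻¹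
          · subst e2
            rw [inv_inv] at h1 ⊢
            rw [Multiset.count_cons_self, Multiset.count_cons_of_ne hxx.symm,
              Multiset.count_cons_of_ne hxx, Multiset.count_cons_self] at h1
            omega
          · have e3 : α⁻¹ ≠ x := by
              intro h
              apply e2
              rw [← h, inv_inv]
            have e4 : α⁻¹ ≠ x⁻¹ := fun h => e1 (inv_injective h)
            rw [Multiset.count_cons_of_ne e1, Multiset.count_cons_of_ne e2,
              Multiset.count_cons_of_ne e3, Multiset.count_cons_of_ne e4] at h1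
            exact h1
      have hcard : A₂.card + 2 = n := by
        rw [← hA, Multiset.card_cons, Multiset.card_cons]
      obtain ⟨h1, h2⟩ := ih A₂.card (by omega) A₂ rfl
        (fun h => h0 (Multiset.mem_cons_of_mem (Multiset.mem_cons_of_mem h))) hcount
      have e1 : (1 : E) ≠ x := fun h => hx1 h.symm
      have e2 : (1 : E) ≠ x⁻¹ := by
        intro h
        apply hx1
        rw [← inv_inv x, ← h, inv_one]
      have e3 : (-1 : E) ≠ x := fun h => hx2 h.symm
      have e4 : (-1 : E) ≠ x⁻¹ := by
        intro h
        apply hx2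
        rw [← inv_inv x, ← h, inv_neg, inv_one]
      rw [Multiset.prod_cons, Multiset.prod_cons, Multiset.card_cons, Multiset.card_cons,
        Multiset.count_cons_of_ne e1, Multiset.count_cons_of_ne e2,
        Multiset.count_cons_of_ne e3, Multiset.count_cons_of_ne e4, ← mul_assoc,
        mul_inv_cancel₀ hx0, one_mul]
      exact ⟨h1, by omega⟩

section
variable {E : Type} [Field E] [CharZero E] [IsAlgClosed E] {W : Type} [AddCommGroup W] [Module E W]
  [FiniteDimensional E W]

omit [CharZero E] [IsAlgClosed E] [FiniteDimensional E W] in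
lemma maxGen_inv {f g : Module.End E W} (h1 : f * g = 1) (h2 : g * f = 1) {α : E} (hα : α ≠ 0) :
    f.maxGenEigenspace α ≤ g.maxGenEigenspace α⁻¹ := by
  intro v hv
  rw [Module.End.mem_maxGenEigenspace] at hv ⊢
  obtain ⟨k, hk⟩ := hv
  refine ⟨k, ?_⟩
  have h3 : g - α⁻¹ • (1 : Module.End E W) = ((-α⁻¹) • g) * (f - α • (1 : Module.End E W)) := by
    rw [mul_sub, smul_mul_assoc, h2, mul_smul_comm, mul_one, smul_smul, neg_smul,
      mul_neg, mul_inv_cancel₀ hα, neg_one_smul]
    abel
  have h4 : Commute ((-α⁻¹) • g) (f - α • (1 : Module.End E W)) := by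
    apply Commute.smul_left
    apply Commute.sub_right
    · exact (h2.trans h1.symm : g * f = f * g)
    · exact (Commute.one_right g).smul_right α
  rw [h3, h4.mul_pow, Module.End.mul_apply, hk, map_zero]

/-- Parity for an isometry. -/
theorem iso_parity {B : W →ₗ[E] W →ₗ[E] E} (hB : ∀ x, (∀ y, B x y = 0) → x = 0)
    (hs : ∀ x y, B x y = B y x) {f : Module.End E W} (hf : ∀ x y, B (f x) (f y) = B x y) :
    LinearMap.det f = (-1) ^ finrank E (f.maxGenEigenspace (-1)) ∧
      finrank E W % 2
        = (finrank E (f.maxGenEigenspace 1) + finrank E (f.maxGenEigenspace (-1))) % 2 := by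
  classical
  obtain ⟨g, h1, h2, h3⟩ := exists_inv hB hf
  have hchar : f.charpoly = g.charpoly := by
    apply Polynomial.funext
    intro t
    rw [LinearMap.eval_charpoly, LinearMap.eval_charpoly]
    refine det_adjoint hB hs fun x y => ?_
    rw [LinearMap.sub_apply, LinearMap.sub_apply, map_sub, LinearMap.sub_apply, map_sub, h3,
      Algebra.algebraMap_eq_smul_one, LinearMap.smul_apply, LinearMap.smul_apply, map_smul,
      map_smul, LinearMap.smul_apply]
    rfl
  have hcount : ∀ α, f.charpoly.roots.count α = finrank E (f.maxGenEigenspace α) := by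
    intro α
    rw [count_roots, LinearMap.finrank_maxGenEigenspace_eq]
  have h0 : (0 : E) ∉ f.charpoly.roots := by
    intro h
    rw [mem_roots (LinearMap.charpoly_monic f).ne_zero,
      ← Module.End.hasEigenvalue_iff_isRoot_charpoly] at h
    obtain ⟨v, hv⟩ := h.exists_hasEigenvector
    apply hv.2
    have h4 : f v = 0 := by
      rw [hv.apply_eq_smul, zero_smul]
    have h5 : v = (g * f) v := by rw [h2, Module.End.one_apply]
    rw [h5, Module.End.mul_apply, h4, map_zero]
  have hinv : ∀ α : E, f.charpoly.roots.count α = f.charpoly.roots.count α⁻¹ := by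
    intro α
    by_cases hα : α = 0
    · rw [hα, inv_zero]
    have e1 : f.maxGenEigenspace α = g.maxGenEigenspace α⁻¹ := by
      apply le_antisymm (maxGen_inv h1 h2 hα)
      have h4 := maxGen_inv h2 h1 (inv_ne_zero hα)
      rwa [inv_inv] at h4
    have e2 : g.charpoly.roots.count α⁻¹ = finrank E (g.maxGenEigenspace α⁻¹) := by
      rw [count_roots, LinearMap.finrank_maxGenEigenspace_eq]
    rw [hcount, e1, ← e2, ← hchar]
  obtain ⟨h4, h5⟩ := parity_multiset _ _ rfl h0 hinv
  rw [hcount, hcount] at h5
  rw [hcount] at h4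
  have h6 : f.charpoly.roots.card = finrank E W := by
    rw [← (IsAlgClosed.splits f.charpoly).natDegree_eq_card_roots, LinearMap.charpoly_natDegree]
  rw [h6] at h5
  refine ⟨?_, h5⟩
  rw [← h4]
  exact Module.End.det_eq_prod_roots_charpoly_of_splits (IsAlgClosed.splits _)

/-- Parity for a similitude. -/
theorem sim_parity {B : W →ₗ[E] W →ₗ[E] E} (hB : ∀ x, (∀ y, B x y = 0) → x = 0)
    (hs : ∀ x y, B x y = B y x) {φ : Module.End E W} {c : E} (hc : c ≠ 0)
    (hφ : ∀ x y, B (φ x) (φ y) = c ^ 2 * B x y) :
    LinearMap.det φ = (-1) ^ finrank E (φ.maxGenEigenspace (-c)) * c ^ finrank E W ∧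
      finrank E W % 2
        = (finrank E (φ.maxGenEigenspace c) + finrank E (φ.maxGenEigenspace (-c))) % 2 := by
  have hf : ∀ x y, B ((c⁻¹ • φ) x) ((c⁻¹ • φ) y) = B x y := by
    intro x y
    simp only [LinearMap.smul_apply, map_smul, hφ, smul_eq_mul]
    field_simp
  have hgen : ∀ α, (c⁻¹ • φ).maxGenEigenspace α = φ.maxGenEigenspace (c * α) := by
    intro α
    ext v
    rw [Module.End.mem_maxGenEigenspace, Module.End.mem_maxGenEigenspace]
    refine exists_congr fun k => ?_
    have h1 : c⁻¹ • φ - α • (1 : Module.End E W) = c⁻¹ • (φ - (c * α) • (1 : Module.End E W)) := by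
      rw [smul_sub, smul_smul, ← mul_assoc, inv_mul_cancel₀ hc, one_mul]
    rw [h1, _root_.smul_pow, LinearMap.smul_apply, smul_eq_zero]
    constructor
    · rintro (h | h)
      · exact (pow_ne_zero k (inv_ne_zero hc) h).elim
      · exact h
    · exact fun h => Or.inr h
  obtain ⟨h1, h2⟩ := iso_parity hB hs hf
  rw [hgen, hgen, mul_one, mul_neg, mul_one] at h2
  rw [hgen, mul_neg, mul_one] at h1
  refine ⟨?_, h2⟩
  have h3 : φ = c • (c⁻¹ • φ) := by rw [smul_smul, mul_inv_cancel₀ hc, one_smul]
  calc LinearMap.det φ = LinearMap.det (c • (c⁻¹ • φ)) := by rw [← h3]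
    _ = c ^ finrank E W * LinearMap.det (c⁻¹ • φ) := LinearMap.det_smul _ _
    _ = _ := by rw [h1, mul_comm]

end

end Pool.Agent.Y134.CH
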