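import Pool.Agent.Y134.CH.Orb
import Pool.Agent.W715.HS.OC

/-!
# Sums over the stable orbits
-/

set_option autoImplicit false

namespace Pool.Agent.Y134.CH

open Finset Function Pool.Agent.Y134.PG Pool.Agent.W528.HS

section
variable {G : Type} [Group G] [Fintype G] {S : Type} [MulAction G S] {E : Type} [Field E]
  {χ : G →* Eˣ} {F : S → S}

lemma over_fix (hc : ∀ (g : G) (x : S), F (g • x) = g • F x) {m : ℕ} {x : S}
    (h : F^[m] x ∈ MulAction.orbit G x) : F^[m * Fintype.card G] x = x := by
  obtain ⟨g, hg⟩ := h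
  have h1 : F^[m] x = g • x := hg.symm
  rw [iterate_mul_smul hc h1, pow_card_eq_one, one_smul]

lemma over_finite (hc : ∀ (g : G) (x : S), F (g • x) = g • F x)
    (hfin : ∀ m, 1 ≤ m → Finite {x : S // F^[m] x = x}) {n : ℕ} (hn : 1 ≤ n) :
    {x : S | F^[n] x ∈ MulAction.orbit G x}.Finite := by
  have h1 : {x : S | F^[n * Fintype.card G] x = x}.Finite :=
    Set.finite_coe_iff.1 (hfin (n * Fintype.card G) (Nat.mul_pos hn Fintype.card_pos))
  exact h1.subset fun x hx => over_fix hc hx

lemma quot_finite (hc : ∀ (g : G) (x : S), F (g • x) = g • F x)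
    (hfin : ∀ m, 1 ≤ m → Finite {x : S // F^[m] x = x}) {n : ℕ} (hn : 1 ≤ n) :
    {O : MulAction.orbitRel.Quotient G S | (Fq F hc)^[n] O = O}.Finite := by
  refine ((over_finite hc hfin hn).image
    (fun x => (Quotient.mk'' x : MulAction.orbitRel.Quotient G S))).subset ?_
  intro O hO
  induction O using Quotient.inductionOn' with
  | h x => exact ⟨x, (iterate_fix hc).1 hO, rfl⟩

lemma card_stab (x : S) :
    Nat.card (MulAction.stabilizer G x) * (MulAction.orbit G x).ncard = Fintype.card G := by
  rw [← MulAction.index_stabilizer, Subgroup.card_mul_index, Nat.card_eq_fintype_card]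

lemma out_orbit (x : S) :
    (Quotient.mk'' x : MulAction.orbitRel.Quotient G S).out ∈ MulAction.orbit G x := by
  rw [← mk_eq]
  exact Quotient.out_eq' _

open Classical in
/-- The twisted sum of the numbers of points. -/
theorem sum_twist (hc : ∀ (g : G) (x : S), F (g • x) = g • F x)
    (hfin : ∀ m, 1 ≤ m → Finite {x : S // F^[m] x = x}) {n : ℕ} (hn : 1 ≤ n) :
    ∑ g : G, (((χ g)⁻¹ : Eˣ) : E) * (Nat.card {x : S // F^[n] x = g • x} : E)
      = (Fintype.card G : E) * ∑ O ∈ (quot_finite hc hfin hn).toFinset.filter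
          (fun O => Good χ O.out), val χ F n O.out := by
  set T := (over_finite hc hfin hn).toFinset with hT
  have hmem : ∀ x, x ∈ T ↔ F^[n] x ∈ MulAction.orbit G x := by
    intro x
    rw [hT, Set.Finite.mem_toFinset]
    rfl
  have h1 : ∀ g : G, (Nat.card {x : S // F^[n] x = g • x} : E)
      = ∑ x ∈ T, (if F^[n] x = g • x then 1 else 0) := by
    intro g
    rw [sum_boole, Nat.subtype_card]
    intro x
    rw [mem_filter, hmem]
    constructor
    · exact fun h => h.2
    · exact fun h => ⟨⟨g, h.symm⟩, h⟩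
  have h2 : ∑ g : G, (((χ g)⁻¹ : Eˣ) : E) * (Nat.card {x : S // F^[n] x = g • x} : E)
      = ∑ x ∈ T, (if Good χ x then (Nat.card (MulAction.stabilizer G x) : E) * val χ F n x
          else 0) := by
    rw [sum_congr rfl fun g _ => by rw [h1 g, mul_sum], sum_comm]
    refine sum_congr rfl fun x hx => ?_
    rw [← sum_coset ((hmem x).1 hx)]
    refine sum_congr rfl fun g _ => ?_
    rw [mul_ite, mul_one, mul_zero]
  rw [h2, ← sum_fiberwise_of_maps_to
    (g := fun x => (Quotient.mk'' x : MulAction.orbitRel.Quotient G S))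
    (t := (quot_finite hc hfin hn).toFinset), sum_filter, mul_sum]
  · refine sum_congr rfl fun O hO => ?_
    rw [Set.Finite.mem_toFinset] at hO
    have hO' : (Fq F hc)^[n] O = O := hO
    set y := O.out with hy
    have hyO : (Quotient.mk'' y : MulAction.orbitRel.Quotient G S) = O := Quotient.out_eq' O
    have hof : (MulAction.orbit G y).Finite := Set.finite_range _
    have hset : T.filter (fun x => (Quotient.mk'' x : MulAction.orbitRel.Quotient G S) = O)
        = hof.toFinset := by
      ext x
      rw [mem_filter, hmem, Set.Finite.mem_toFinset]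
      constructor
      · rintro ⟨-, h⟩
        rw [← mk_eq, h, hyO]
      · intro h
        have h3 : (Quotient.mk'' x : MulAction.orbitRel.Quotient G S) = O := by
          rw [← hyO, mk_eq]
          exact h
        refine ⟨?_, h3⟩
        rw [← iterate_fix hc, h3]
        exact hO'
    rw [hset]
    split_ifs with hg
    · have h3 : ∀ x ∈ hof.toFinset,
          (if Good χ x then (Nat.card (MulAction.stabilizer G x) : E) * val χ F n x else 0)
            = (Nat.card (MulAction.stabilizer G y) : E) * val χ F n y := by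
        intro x hx
        rw [Set.Finite.mem_toFinset] at hx
        rw [if_pos (good_of_orbit hg hx), val_orbit hc hg hx]
        congr 2
        have e1 := card_stab (G := G) x
        have e2 := card_stab (G := G) y
        rw [MulAction.orbit_eq_iff.2 hx, ← e2] at e1
        refine Nat.eq_of_mul_eq_mul_right ?_ e1
        rw [Set.ncard_pos hof]
        exact ⟨y, MulAction.mem_orbit_self y⟩
      rw [sum_congr rfl h3, sum_const, nsmul_eq_mul, ← Set.ncard_eq_toFinset_card _ hof, ← mul_assoc,
        ← card_stab (G := G) y]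
      push_cast
      ring
    · rw [mul_zero]
      refine sum_eq_zero fun x hx => ?_
      rw [Set.Finite.mem_toFinset] at hx
      rw [if_neg]
      intro h
      exact hg (good_of_orbit h (MulAction.mem_orbit_symm.1 hx))
  · intro x hx
    rw [Set.Finite.mem_toFinset]
    exact (iterate_fix hc).2 ((hmem x).1 hx)

end

section
variable {G : Type} [Group G] [Fintype G] {S : Type} [MulAction G S] {E : Type} [Field E]
  {χ : G →* Eˣ} {F : S → S}

/-- The numbers of closed points of the quotient with the values of the character. -/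
theorem orb {N : ℕ} (hN : 0 < N) {μ : E} (hμ : IsPrimitiveRoot μ N) (hχ : ∀ g, χ g ^ N = 1)
    (hF : Injective F) (hc : ∀ (g : G) (x : S), F (g • x) = g • F x)
    (hfin : ∀ m, 1 ≤ m → Finite {x : S // F^[m] x = x}) :
    ∃ a : ℕ → ℕ → ℕ, ∀ n, 1 ≤ n →
      (∑ g : G, (((χ g)⁻¹ : Eˣ) : E) * (Nat.card {x : S // F^[n] x = g • x} : E)
        = (Fintype.card G : E) * orbSum N μ a n) ∧
      (goodOrbits χ F n : E) = orbSum N (1 : E) a n := by
  classical
  have : NeZero N := ⟨hN.ne'⟩
  let Z : ℕ → ℕ → Set (MulAction.orbitRel.Quotient G S) := fun d i =>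
    {O | Good χ O.out ∧ minimalPeriod (Fq F hc) O = d ∧ val χ F d O.out = μ ^ i}
  -- the value of a stable good orbit
  have hgood : ∀ (O : MulAction.orbitRel.Quotient G S), Good χ (Fq F hc O).out ↔ Good χ O.out := by
    intro O
    have h1 : (Quotient.mk'' O.out : MulAction.orbitRel.Quotient G S) = O := Quotient.out_eq' O
    have h2 : (Fq F hc O).out ∈ MulAction.orbit G (F O.out) := by
      have h3 := out_orbit (G := G) (F O.out)
      rw [← Fq_mk hc, h1] at h3
      exact h3
    constructor
    · intro h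
      rw [← good_F hc hF]
      exact good_of_orbit h (MulAction.mem_orbit_symm.1 h2)
    · intro h
      rw [← good_F hc hF] at h
      exact good_of_orbit h h2
  have hval : ∀ (O : MulAction.orbitRel.Quotient G S) (n : ℕ), Good χ O.out →
      val χ F n (Fq F hc O).out = val χ F n O.out := by
    intro O n hO
    have h1 : (Quotient.mk'' O.out : MulAction.orbitRel.Quotient G S) = O := Quotient.out_eq' O
    have h2 : (Fq F hc O).out ∈ MulAction.orbit G (F O.out) := by
      have h3 := out_orbit (G := G) (F O.out)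
      rw [← Fq_mk hc, h1] at h3
      exact h3
    rw [val_orbit hc ((good_F hc hF).2 hO) h2, val_F hc hF hO]
  have hper : ∀ (O : MulAction.orbitRel.Quotient G S) (n : ℕ), (Fq F hc)^[n] O = O →
      ∃ g : G, F^[n] O.out = g • O.out := by
    intro O n hO
    have h1 : (Quotient.mk'' O.out : MulAction.orbitRel.Quotient G S) = O := Quotient.out_eq' O
    obtain ⟨g, hg⟩ := (iterate_fix (x := O.out) hc).1 (by rw [h1]; exact hO)
    exact ⟨g, hg.symm⟩
  have hZfin : ∀ d i, 1 ≤ d → (Z d i).Finite := by
    intro d i hd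
    refine (quot_finite hc hfin hd).subset ?_
    intro O hO
    change (Fq F hc)^[d] O = O
    rw [← hO.2.1]
    exact iterate_minimalPeriod
  have hZdvd : ∀ d i, 1 ≤ d → d ∣ (Z d i).ncard := by
    intro d i hd
    rw [Set.ncard_eq_toFinset_card _ (hZfin d i hd)]
    refine Pool.Agent.W715.HS.OC.dvd_card_of_minimalPeriod (Fq F hc) (Fq_inj hF hc) _ hd _ _ rfl
      ?_ ?_
    · intro O hO
      rw [Set.Finite.mem_toFinset] at hO ⊢
      have h1 : minimalPeriod (Fq F hc) O = d := hO.2.1
      have h2 : O ∈ periodicPts (Fq F hc) :=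
        minimalPeriod_pos_iff_mem_periodicPts.1 (by rw [h1]; exact hd)
      refine ⟨(hgood O).2 hO.1, ?_, ?_⟩
      · rw [minimalPeriod_apply h2, h1]
      · rw [hval O d hO.1, hO.2.2]
    · intro O hO
      rw [Set.Finite.mem_toFinset] at hO
      exact hO.2.1
  -- the index of the value
  have hidx : ∀ (O : MulAction.orbitRel.Quotient G S), ∃ i < N, Good χ O.out →
      0 < minimalPeriod (Fq F hc) O → val χ F (minimalPeriod (Fq F hc) O) O.out = μ ^ i := by
    intro O
    by_cases hO : Good χ O.out
    · by_cases hp : 0 < minimalPeriod (Fq F hc) O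
      · obtain ⟨g, hg⟩ := hper O _ (iterate_minimalPeriod (f := Fq F hc) (x := O))
        have h1 : val χ F (minimalPeriod (Fq F hc) O) O.out ^ N = 1 := by
          rw [val_eq hO hg, ← Units.val_pow_eq_pow_val, inv_pow, hχ g, inv_one, Units.val_one]
        obtain ⟨i, hi, hi2⟩ := hμ.eq_pow_of_pow_eq_one h1
        exact ⟨i, hi, fun _ _ => hi2.symm⟩
      · exact ⟨0, hN, fun _ h => (hp h).elim⟩
    · exact ⟨0, hN, fun h => (hO h).elim⟩
  choose ι hι1 hι2 using hidx
  refine ⟨fun d i => (Z d i).ncard / d, ?_⟩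
  intro n hn
  set T := (quot_finite hc hfin hn).toFinset.filter (fun O => Good χ O.out) with hT
  have hmem : ∀ O, O ∈ T ↔ (Fq F hc)^[n] O = O ∧ Good χ O.out := by
    intro O
    rw [hT, mem_filter, Set.Finite.mem_toFinset]
    rfl
  -- sums over `T`
  have hsum : ∀ (ν : E) (f : MulAction.orbitRel.Quotient G S → E),
      (∀ O ∈ T, f O = ν ^ (ι O * (n / minimalPeriod (Fq F hc) O))) →
      ∑ O ∈ T, f O = orbSum N ν (fun d i => (Z d i).ncard / d) n := by
    intro ν f hf
    rw [← sum_fiberwise_of_maps_to (g := fun O => (minimalPeriod (Fq F hc) O, ι O))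
      (t := n.divisors ×ˢ range N), sum_product]
    · unfold orbSum
      refine sum_congr rfl fun d hd => ?_
      rw [mul_sum]
      refine sum_congr rfl fun i hi => ?_
      have hd1 : 1 ≤ d := Nat.pos_of_mem_divisors hd
      have h1 : T.filter (fun O => (minimalPeriod (Fq F hc) O, ι O) = (d, i))
          = (hZfin d i hd1).toFinset := by
        ext O
        rw [mem_filter, hmem, Set.Finite.mem_toFinset]
        constructor
        · rintro ⟨⟨h1, h2⟩, h3⟩
          rw [Prod.mk.injEq] at h3
          refine ⟨h2, h3.1, ?_⟩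
          have h4 := hι2 O h2 (by rw [h3.1]; exact hd1)
          rw [h3.1, h3.2] at h4
          exact h4
        · rintro ⟨h1, h2, h3⟩
          have h4 := hι2 O h1 (by rw [h2]; exact hd1)
          rw [h2, h3] at h4
          refine ⟨⟨?_, h1⟩, ?_⟩
          · have h5 : IsPeriodicPt (Fq F hc) d O := by
              rw [← h2]
              exact isPeriodicPt_minimalPeriod _ _
            exact h5.trans_dvd (Nat.dvd_of_mem_divisors hd)
          · rw [Prod.mk.injEq]
            exact ⟨h2, (hμ.pow_inj (mem_range.1 hi) (hι1 O) h4).symm⟩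
      rw [h1]
      have h2 : ∀ O ∈ (hZfin d i hd1).toFinset, f O = ν ^ (i * (n / d)) := by
        intro O hO
        rw [← h1, mem_filter] at hO
        rw [hf O hO.1]
        have h3 := hO.2
        rw [Prod.mk.injEq] at h3
        rw [h3.1, h3.2]
      rw [sum_congr rfl h2, sum_const, nsmul_eq_mul,
        ← Set.ncard_eq_toFinset_card _ (hZfin d i hd1), ← mul_assoc, ← Nat.cast_mul, Nat.mul_div_cancel' (hZdvd d i hd1)]
    · intro O hO
      rw [hmem] at hO
      rw [mem_product, Nat.mem_divisors, mem_range]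
      have h1 : IsPeriodicPt (Fq F hc) n O := hO.1
      exact ⟨⟨h1.minimalPeriod_dvd, by omega⟩, hι1 O⟩
  constructor
  · rw [sum_twist hc hfin hn]
    congr 1
    refine hsum μ _ fun O hO => ?_
    rw [hmem] at hO
    have h1 : IsPeriodicPt (Fq F hc) n O := hO.1
    have h2 : 0 < minimalPeriod (Fq F hc) O := h1.minimalPeriod_pos hn
    obtain ⟨g, hg⟩ := hper O _ (iterate_minimalPeriod (f := Fq F hc) (x := O))
    have h3 := val_mul hc hO.2 hg (n / minimalPeriod (Fq F hc) O)
    rw [Nat.mul_div_cancel' h1.minimalPeriod_dvd, hι2 O hO.2 h2, ← pow_mul] at h3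
    exact h3
  · have h1 : (goodOrbits χ F n : E) = ∑ O ∈ T, (1 : E) := by
      rw [sum_const, nsmul_eq_mul, mul_one, goodOrbits, Nat.subtype_card]
      intro O
      rw [hmem]
      constructor
      · rintro ⟨h1, h2⟩
        obtain ⟨g, hg⟩ := hper O n h1
        exact ⟨O.out, Quotient.out_eq' O, ⟨g, hg.symm⟩, h2⟩
      · rintro ⟨x, rfl, h1, h2⟩
        exact ⟨(iterate_fix hc).2 h1, good_of_orbit h2 (out_orbit x)⟩
    rw [h1]
    refine hsum 1 _ fun O hO => ?_
    rw [one_pow]

end

end Pool.Agent.Y134.CH
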