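import Pool.Agent.Y134.CH.Defs

/-!
# The zeta function modulo `p` attached to a character
-/

set_option autoImplicit false

namespace Pool.Agent.Y134.CH

open Polynomial

/-- The multiplicity of the eigenvalue `α` of `f`. -/
noncomputable def mult {E U : Type} [Field E] [AddCommGroup U] [Module E U] (f : Module.End E U)
    (α : E) : ℕ :=
  Module.finrank E (f.maxGenEigenspace α)

/-- The determinant. -/
noncomputable def detOf {E U : Type} [Field E] [AddCommGroup U] [Module E U]
    (f : Module.End E U) : E :=
  LinearMap.det f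

/-- The form `b` is symmetric, nondegenerate and invariant under `G`, and `φ` is a similitude with
the factor `Q ^ 2`. -/
structure IsForm {E G V : Type} [Field E] [Group G] [AddCommGroup V] [Module E V]
    (σ : Representation E G V) (φ : Module.End E V) (Q : ℕ) (b : V →ₗ[E] V →ₗ[E] E) : Prop where
  nondeg : ∀ x, (∀ y, b x y = 0) → x = 0
  symm : ∀ x y, b x y = b y x
  invariant : ∀ g x y, b (σ g x) (σ g y) = b x y
  similitude : ∀ x y, b (φ x) (φ y) = (Q : E) ^ 2 * b x y

/-- `H` is the reduction modulo `p` of `P₁ P₃ / P₂`. Here `P₁`, `P₂` are integral polynomials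
`∏ (1 - x T)` such that the numbers of good orbits of `χ` are the differences of the power sums,
and `P₃(μ, T) = ∏ (1 - x T)`, the product over the eigenvalues `x` of `f`; the root of unity `μ` is
mapped to `1`. -/
def ZetaRed {K S E U : Type} [Group K] [MulAction K S] [Field E] [AddCommGroup U] [Module E U]
    [FiniteDimensional E U] (χ : K →* Eˣ) (F : S → S) (μ : E) (f : Module.End E U) (p : ℕ)
    (H : (ZMod p)[X]) : Prop :=
  ∃ (P₁ P₂ : ℤ[X]) (P₃ : ℤ[X][X]) (B₁ B₂ : Multiset E),
    P₁.map (Int.castRingHom E) = (B₁.map fun x => 1 - C x * X).prod ∧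
    P₂.map (Int.castRingHom E) = (B₂.map fun x => 1 - C x * X).prod ∧
    P₃.map (evHom μ) = zpoly f ∧
    (∀ m, 1 ≤ m → (goodOrbits χ F m : E)
      = (B₁.map fun x => x ^ m).sum - (B₂.map fun x => x ^ m).sum) ∧
    H * P₂.map (Int.castRingHom (ZMod p))
      = P₁.map (Int.castRingHom (ZMod p)) * P₃.map (redHom (ZMod p))

lemma coeff_zero_of_prod {E : Type} [Field E] [CharZero E] {P : ℤ[X]} {B : Multiset E}
    (h : P.map (Int.castRingHom E) = (B.map fun x => 1 - C x * X).prod) : P.coeff 0 = 1 := by
  have h1 : (Int.castRingHom E) (P.coeff 0) = (Int.castRingHom E) 1 := by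
    rw [← coeff_map, h, coeff_zero_multiset_prod, Multiset.map_map, map_one]
    apply Multiset.prod_eq_one
    intro x hx
    obtain ⟨y, -, rfl⟩ := Multiset.mem_map.1 hx
    simp
  exact RingHom.injective_int (Int.castRingHom E) h1

end Pool.Agent.Y134.CH
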